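import Pool.Agent.Lib.MP_fc1011_gt.Basic

/-!
# Diagrams made of multi-strand twist regions

`m` parallel strands, numbered `0, …, m - 1` from the left to the right, run from the top to the bottom of the
plane; a twist region consists of any number of half twists of neighbouring strands.  The `2 m` ends are joined
in pairs in any way (the arcs may cross each other; such crossings are virtual and are not counted).
-/

namespace MP_fc1011_gt.MV

open LaurentPolynomial

/-- A pairing of the `2 m` ends; `(true, x)` is the upper end and `(false, x)` the lower end of the
strand in the place `x`. -/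
structure Closure (m : ℕ) where
  /-- the partner of an end -/
  f : Bool × Fin m → Bool × Fin m
  invol : ∀ x, f (f x) = x
  ne : ∀ x, f x ≠ x

/-- A twist region: `halfTwists` half twists (of either sign) of the strands in the places
`first, …, first + strands - 1`. -/
structure Region where
  /-- the first place -/
  first : ℕ
  /-- the number of strands -/
  strands : ℕ
  /-- the number of half twists -/
  halfTwists : ℤ

/-- The half twist of the first `k` strands, in terms of the generators of the braid group (`σ_i` crosses the
strands in the places `i` and `i + 1`): `σ_0 (σ_1 σ_0) (σ_2 σ_1 σ_0) …`, with `k (k - 1) / 2` crossings. -/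
def halfTwist (k : ℕ) : List ℕ := (List.range (k - 1)).flatMap fun j => (List.range (j + 1)).reverse

/-- The crossings `(i, ε)` of a region: `i` means the places `i` and `i + 1`, `ε` is the sign. -/
def Region.crossings (r : Region) : List (ℕ × Bool) :=
  (List.replicate r.halfTwists.natAbs (halfTwist r.strands)).flatten.map
    fun j => (r.first + j, decide (0 < r.halfTwists))

section

variable {m : ℕ}

/-- The level of the upper (`true`) or lower (`false`) ends. -/
def lev (L : ℕ) (b : Bool) : Fin (L + 1) := if b = true then 0 else Fin.last L

/-- Pieces of strands which are joined in a state.  The piece `(j, x)` is the piece of the strand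
in the place `x` above the `j`-th crossing and below the previous one.  A state `s` chooses for
every crossing the vertical smoothing (`true`) or the horizontal one (`false`). -/
inductive Joined (cs : List (ℕ × Bool)) (μ : Closure m) (s : Fin cs.length → Bool) :
    Fin (cs.length + 1) × Fin m → Fin (cs.length + 1) × Fin m → Prop
  | outer (x : Bool × Fin m) :
      Joined cs μ s (lev _ x.1, x.2) (lev _ (μ.f x).1, (μ.f x).2)
  | through (j : Fin cs.length) (x : Fin m) :
      (s j = true ∨ ((x : ℕ) ≠ (cs.get j).1 ∧ (x : ℕ) ≠ (cs.get j).1 + 1)) →
      Joined cs μ s (j.castSucc, x) (j.succ, x)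
  | above (j : Fin cs.length) (x y : Fin m) : s j = false → (x : ℕ) = (cs.get j).1 →
      (y : ℕ) = (cs.get j).1 + 1 → Joined cs μ s (j.castSucc, x) (j.castSucc, y)
  | below (j : Fin cs.length) (x y : Fin m) : s j = false → (x : ℕ) = (cs.get j).1 →
      (y : ℕ) = (cs.get j).1 + 1 → Joined cs μ s (j.succ, x) (j.succ, y)

/-- The number of loops of a state. -/
noncomputable def loops (cs : List (ℕ × Bool)) (μ : Closure m) (s : Fin cs.length → Bool) : ℕ :=
  Nat.card (Quot (Joined cs μ s))

/-- The product of the factors `A` and `A⁻¹` of the smoothings of a state. -/
noncomputable def weight (cs : List (ℕ × Bool)) (s : Fin cs.length → Bool) : ℤ[T;T⁻¹] :=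
  ∏ j, if s j = (cs.get j).2 then T 1 else T (-1)

/-- The Kauffman bracket, normalised by the value `1` of the diagram without crossings of the
unknot. -/
noncomputable def bracket (cs : List (ℕ × Bool)) (μ : Closure m) : ℤ[T;T⁻¹] :=
  ∑ s : Fin cs.length → Bool, weight cs s * delta ^ (loops cs μ s - 1)

end

/-- A diagram with `m` strands. -/
structure Diagram (m : ℕ) where
  /-- how the ends are joined -/
  closure : Closure m
  /-- the twist regions, from the top to the bottom -/
  regions : List Region
  valid : ∀ r ∈ regions, r.first + r.strands ≤ m

namespace Diagram

variable {m : ℕ} (D : Diagram m)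

/-- All crossings of the diagram. -/
def crossings : List (ℕ × Bool) := D.regions.flatMap Region.crossings

/-- `V` is the Jones polynomial of `D`: `V(A⁻⁴) = (-A³)^(-w) ⟨D⟩` where the integer `w` is the
writhe of the diagram. -/
def IsJones (V : ℤ[T;T⁻¹]) : Prop :=
  ∃ w : ℤ, TwistDiagram.toA V =
    (C (Int.negOnePow w : ℤ) * T (-3 * w)) * bracket D.crossings D.closure

/-- The sum of the cubes of the numbers of strands of the twist regions. -/
def cubes : ℕ := (D.regions.map fun r => r.strands ^ 3).sum

end Diagram

end MP_fc1011_gt.MV
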