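import Pool.Agent.Lib.MP_fc1011_gt.L1

/-!
# MP_fc1011_gt, multi-strand twist regions: division by `1 + t` and `1 - t ^ g`
-/

set_option autoImplicit false

namespace MP_fc1011_gt.MV

open LaurentPolynomial Finset

/-- Division by `q` does not increase the partial sums of the absolute values of the coefficients. -/
def Dom (q : ℤ[T;T⁻¹]) : Prop :=
  ∀ (W : ℤ[T;T⁻¹]) (a : ℤ), (∀ i < a, W.coeff i = 0) →
    (∀ i < a, (q * W).coeff i = 0) ∧
    ∀ j : ℕ, (W.coeff (a + j)).natAbs ≤ ∑ i ∈ range (j + 1), ((q * W).coeff (a + i)).natAbs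

theorem coeff_one_add_mul (ε : ℤ) (g : ℤ) (W : ℤ[T;T⁻¹]) (j : ℤ) :
    ((1 + C ε * T g) * W).coeff j = W.coeff j + ε * W.coeff (j - g) := by
  rw [add_mul, one_mul, AddMonoidAlgebra.coeff_add, Finsupp.add_apply]
  congr 1
  rw [← single_eq_C_mul_T]
  have := AddMonoidAlgebra.coeff_single_mul_eq_mul_coeff (x := W) (m := g) (m₁ := j)
    (r := ε) (j - g) (fun a _ => by constructor <;> intro h <;> omega)
  rw [this]

theorem dom_of (ε : ℤ) (hε : ε.natAbs = 1) (g : ℕ) (hg : 1 ≤ g) : Dom (1 + C ε * T (g : ℤ)) := by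
  intro W a hW
  constructor
  · intro i hi
    rw [coeff_one_add_mul, hW i hi, hW (i - g) (by omega), mul_zero, add_zero]
  · intro j
    induction j using Nat.strong_induction_on with
    | _ j ih =>
      have h1 : W.coeff (a + j) = ((1 + C ε * T (g : ℤ)) * W).coeff (a + j) -
          ε * W.coeff (a + j - g) := by
        rw [coeff_one_add_mul]
        ring
      have h2 : (ε * W.coeff (a + j - g)).natAbs = (W.coeff (a + j - g)).natAbs := by
        rw [Int.natAbs_mul, hε, one_mul]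
      have h3 := Int.natAbs_sub_le (((1 + C ε * T (g : ℤ)) * W).coeff (a + j))
        (ε * W.coeff (a + j - g))
      rw [← h1, h2] at h3
      rw [Finset.sum_range_succ]
      have h4 : (W.coeff (a + j - g)).natAbs ≤
          ∑ i ∈ range j, (((1 + C ε * T (g : ℤ)) * W).coeff (a + i)).natAbs := by
        rcases Nat.lt_or_ge j g with h5 | h5
        · rw [hW (a + j - g) (by omega)]
          exact Nat.zero_le _
        · have h6 := ih (j - g) (by omega)
          have h7 : a + j - g = a + ((j - g : ℕ) : ℤ) := by omega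
          rw [h7]
          refine h6.trans ?_
          refine Finset.sum_le_sum_of_subset ?_
          intro i hi
          rw [Finset.mem_range] at hi ⊢
          omega
      omega

theorem dom_one_add : Dom (1 + T 1) := by
  have h := dom_of 1 rfl 1 le_rfl
  rwa [map_one, one_mul] at h

theorem dom_one_sub (g : ℕ) (hg : 1 ≤ g) : Dom (1 - T (g : ℤ)) := by
  have h := dom_of (-1) rfl g hg
  rwa [map_neg, map_one, neg_one_mul, ← sub_eq_add_neg] at h

theorem sum_natAbs_le (U : ℤ[T;T⁻¹]) (a : ℤ) (n : ℕ) :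
    ∑ i ∈ range n, (U.coeff (a + i)).natAbs ≤ l1 U := by
  have hinj : Function.Injective fun i : ℕ => a + (i : ℤ) := fun x y h => by
    simp only at h; omega
  rw [l1_eq_sum U (U.coeff.support ∪ (range n).map ⟨fun i : ℕ => a + (i : ℤ), hinj⟩)
    Finset.subset_union_left]
  refine le_trans (le_of_eq ?_) (Finset.sum_le_sum_of_subset
    (f := fun i => (U.coeff i).natAbs)
    (Finset.subset_union_right (s₂ := (range n).map ⟨fun i : ℕ => a + (i : ℤ), hinj⟩)))
  rw [Finset.sum_map]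
  rfl

theorem coeff_bound_list : ∀ (qs : List ℤ[T;T⁻¹]), (∀ q ∈ qs, Dom q) →
    ∀ (q₀ : ℤ[T;T⁻¹]), Dom q₀ → ∀ (W : ℤ[T;T⁻¹]) (a : ℤ), (∀ i < a, W.coeff i = 0) →
    ∀ j : ℕ, (W.coeff (a + j)).natAbs ≤
      l1 (q₀ * (qs.prod * W)) * (qs.length + j).choose qs.length
  | [], _, q₀, h₀, W, a, hW, j => by
    rw [List.prod_nil, one_mul, List.length_nil, Nat.choose_zero_right, mul_one]
    exact ((h₀ W a hW).2 j).trans (sum_natAbs_le _ _ _)
  | q :: qs, hq, q₀, h₀, W, a, hW, j => by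
    obtain ⟨h1, h2⟩ := hq q List.mem_cons_self W a hW
    have ih := coeff_bound_list qs (fun q' h => hq q' (List.mem_cons_of_mem _ h)) q₀ h₀ (q * W) a h1
    refine (h2 j).trans ((Finset.sum_le_sum fun i _ => ih i).trans (le_of_eq ?_))
    rw [← Finset.mul_sum, sum_choose_range, List.length_cons, List.prod_cons]
    congr 2
    ring

theorem atNegOne_le_list (V : ℤ[T;T⁻¹]) (qs : List ℤ[T;T⁻¹]) (hq : ∀ q ∈ qs, Dom q)
    (q₀ : ℤ[T;T⁻¹]) (h₀ : Dom q₀) :
    (atNegOne V).natAbs ≤ l1 (q₀ * (qs.prod * V)) *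
      (qs.length + 1 + span V).choose (qs.length + 1) := by
  obtain ⟨a, ha, hb⟩ := exists_window V
  have hinj : Function.Injective fun i : ℕ => a + (i : ℤ) := fun x y h => by
    simp only at h; omega
  set s : Finset ℤ := (Finset.range (span V + 1)).map ⟨fun i : ℕ => a + (i : ℤ), hinj⟩ with hs
  have hsub : V.coeff.support ⊆ s := by
    intro i hi
    rw [Finsupp.mem_support_iff] at hi
    have h1 : a ≤ i := by
      by_contra h
      exact hi (ha i (by omega))
    have h2 : i ≤ a + span V := by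
      by_contra h
      exact hi (hb i (by omega))
    rw [hs, Finset.mem_map]
    refine ⟨(i - a).toNat, ?_, ?_⟩
    · rw [Finset.mem_range]; omega
    · simp only [Function.Embedding.coeFn_mk]
      omega
  have h1 : atNegOne V = ∑ i ∈ s, V.coeff i * (Int.negOnePow i : ℤ) := by
    unfold atNegOne
    rw [Finsupp.sum_of_support_subset _ hsub]
    intro i _; simp
  rw [h1]
  have h2 : (∑ i ∈ s, V.coeff i * (Int.negOnePow i : ℤ)).natAbs ≤
      ∑ i ∈ s, (V.coeff i).natAbs := by
    refine (Int.natAbs_sum_le _ _).trans (Finset.sum_le_sum fun i _ => ?_)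
    rw [Int.natAbs_mul]
    have : ((Int.negOnePow i : ℤˣ) : ℤ).natAbs = 1 := Int.units_natAbs _
    rw [this, mul_one]
  refine h2.trans ?_
  rw [hs, Finset.sum_map, ← sum_choose_range, Finset.mul_sum]
  refine Finset.sum_le_sum fun j _ => ?_
  exact coeff_bound_list qs hq q₀ h₀ V a ha j

/-- `q` is, up to a factor of norm at most one, the image of a product of `M` factors. -/
def Good (M : ℕ) (q : ℤ[T;T⁻¹]) : Prop :=
  ∃ (u : ℤ[T;T⁻¹]) (qs : List ℤ[T;T⁻¹]), l1 u ≤ 1 ∧ qs.length = M ∧ (∀ q ∈ qs, Dom q) ∧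
    TwistDiagram.toA qs.prod = u * q

theorem Good.one : Good 0 1 := ⟨1, [], le_of_eq l1_one, rfl, by simp, by simp⟩

theorem Good.mul {M M' : ℕ} {q q' : ℤ[T;T⁻¹]} (h : Good M q) (h' : Good M' q') :
    Good (M + M') (q * q') := by
  obtain ⟨u, qs, h1, h2, h3, h4⟩ := h
  obtain ⟨u', qs', h1', h2', h3', h4'⟩ := h'
  refine ⟨u * u', qs ++ qs', ?_, ?_, ?_, ?_⟩
  · exact (l1_mul_le _ _).trans (Nat.mul_le_mul h1 h1')
  · rw [List.length_append, h2, h2']
  · intro q hq
    rcases List.mem_append.mp hq with hq | hq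
    · exact h3 q hq
    · exact h3' q hq
  · rw [List.prod_append, map_mul, h4, h4']
    ring

theorem Good.prod {ι : Type*} (s : Finset ι) (f : ι → ℤ[T;T⁻¹]) (M : ℕ)
    (h : ∀ i ∈ s, Good M (f i)) : Good (s.card * M) (∏ i ∈ s, f i) := by
  classical
  induction s using Finset.induction_on with
  | empty =>
    rw [Finset.prod_empty, Finset.card_empty, zero_mul]
    exact Good.one
  | insert a s ha ih =>
    rw [Finset.prod_insert ha, Finset.card_insert_of_notMem ha, add_mul, one_mul, add_comm]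
    exact (h a (Finset.mem_insert_self a s)).mul (ih fun i hi => h i (Finset.mem_insert_of_mem hi))

theorem toA_T (n : ℤ) : TwistDiagram.toA (T n) = T (-4 * n) := by
  unfold TwistDiagram.toA T
  rw [AddMonoidAlgebra.mapDomainRingHom_apply, AddMonoidAlgebra.mapDomain_single]
  rfl

theorem Good.diff {a b : ℤ} (hab : a ≠ b) (h4 : (4 : ℤ) ∣ a - b) :
    Good 1 (T a - T b : ℤ[T;T⁻¹]) := by
  obtain ⟨c, hc⟩ := h4
  rcases lt_or_gt_of_ne (show c ≠ 0 by rintro rfl; omega) with h | h
  · obtain ⟨g, hg⟩ : ∃ g : ℕ, (g : ℤ) = -c := ⟨(-c).toNat, by omega⟩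
    refine ⟨-T (-b), [1 - T (g : ℤ)], ?_, rfl, ?_, ?_⟩
    · rw [l1_neg, l1_T]
    · intro q hq
      rw [List.mem_singleton] at hq
      rw [hq]
      exact dom_one_sub g (by omega)
    · have e1 : (T (-b) * T b : ℤ[T;T⁻¹]) = 1 := by rw [← T_add, neg_add_cancel, T_zero]
      have e2 : (T (-b) * T a : ℤ[T;T⁻¹]) = T (-4 * (g : ℤ)) := by
        rw [← T_add, hg]
        congr 1
        linarith
      rw [List.prod_singleton, map_sub, map_one, toA_T]
      linear_combination e2 - e1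
  · obtain ⟨g, hg⟩ : ∃ g : ℕ, (g : ℤ) = c := ⟨c.toNat, by omega⟩
    refine ⟨T (-a), [1 - T (g : ℤ)], ?_, rfl, ?_, ?_⟩
    · rw [l1_T]
    · intro q hq
      rw [List.mem_singleton] at hq
      rw [hq]
      exact dom_one_sub g (by omega)
    · rw [List.prod_singleton, map_sub, map_one, toA_T, mul_sub, ← T_add, ← T_add,
        neg_add_cancel, T_zero, hg]
      have h1 : -4 * c = -a + b := by linarith
      rw [h1]

theorem toA_one_add : TwistDiagram.toA (1 + T 1) = -T (-2) * delta := by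
  have e1 : (T (-2) * T 2 : ℤ[T;T⁻¹]) = 1 := by
    rw [← T_add]
    exact T_zero
  have e2 : (T (-2) * T (-2) : ℤ[T;T⁻¹]) = T (-4 * 1) := by
    rw [← T_add]
    rfl
  rw [map_add, map_one, toA_T]
  unfold delta
  linear_combination -e1 - e2

/-- The bound for the determinant. -/
theorem atNegOne_le_good {V B q : ℤ[T;T⁻¹]} {M N : ℕ} (hq : Good M q) {v : ℤ[T;T⁻¹]}
    (hv : l1 v ≤ 1) (hV : TwistDiagram.toA V = v * B) (hB : l1 (q * (delta * B)) ≤ N) :
    (atNegOne V).natAbs ≤ N * (M + 1 + span V).choose (M + 1) := by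
  obtain ⟨u, qs, h1, h2, h3, h4⟩ := hq
  have h5 := atNegOne_le_list V qs h3 (1 + T 1) dom_one_add
  rw [h2] at h5
  refine h5.trans (Nat.mul_le_mul_right _ ?_)
  rw [← l1_toA, map_mul, map_mul, toA_one_add, h4, hV]
  have e : -T (-2) * delta * (u * q * (v * B)) = (-T (-2) * u * v) * (q * (delta * B)) := by ring
  rw [e]
  refine (l1_mul_le _ _).trans ?_
  have h6 : l1 (-T (-2) * u * v : ℤ[T;T⁻¹]) ≤ 1 := by
    refine (l1_mul_le _ _).trans ?_
    have h7 : l1 (-T (-2) * u : ℤ[T;T⁻¹]) ≤ 1 := by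
      refine (l1_mul_le _ _).trans ?_
      rw [l1_neg, l1_T, one_mul]
      exact h1
    exact Nat.mul_le_mul h7 hv
  calc _ ≤ 1 * N := Nat.mul_le_mul h6 hB
    _ = N := one_mul _

end MP_fc1011_gt.MV
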