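import Pool.Agent.Lib.MP_fc1011_gt.MV.Norm
import Pool.Agent.Lib.MP_fc1011_gt.MV.Div
import Pool.Agent.Lib.MP_fc1011_gt.Quotient

/-!
# MP_fc1011_gt, multi-strand twist regions: assembly
-/

set_option autoImplicit false

namespace MP_fc1011_gt.MV

open LaurentPolynomial Finset

variable {m : ℕ}

/-- The sign of a crossing. -/
def sgn (b : Bool) : ℤ := if b = true then 1 else -1

/-- The bracket, multiplied by `delta`, as a function of the pairing. -/
noncomputable def val (cs : List (ℕ × Bool)) (μ : Closure m) : ℤ[T;T⁻¹] := delta * bracket cs μ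

theorem val_cons (hm : 0 < m) (c : ℕ × Bool) (hc : c.1 + 1 < m) (cs : List (ℕ × Bool)) :
    (val (c :: cs) : Closure m → ℤ[T;T⁻¹]) =
      (sg (tu (sgn c.2)) (fun j => UU m j) c.1 : Op m) (val cs) := by
  funext μ
  change delta * bracket (c :: cs) μ = T (sgn c.2) * (delta * bracket cs μ) +
    T (-(sgn c.2)) * (delta ^ lp μ c.1 * (delta * bracket cs (μ.cap c.1)))
  rw [delta_bracket_cons hm c hc]
  obtain ⟨i, b⟩ := c
  cases b
  · rfl
  · rfl

theorem val_map (hm : 0 < m) (f : ℕ) (b : Bool) (rest : List (ℕ × Bool)) : ∀ l : List ℕ,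
    (∀ j ∈ l, f + j + 1 < m) →
    (val (l.map (fun j => (f + j, b)) ++ rest) : Closure m → ℤ[T;T⁻¹]) =
      ((l.map (sg (tu (sgn b)) (fun j => UU m (f + j)))).prod : Op m) (val rest)
  | [], _ => rfl
  | j :: l, hl => by
    have ih := val_map hm f b rest l fun j' h => hl j' (List.mem_cons_of_mem _ h)
    rw [List.map_cons, List.cons_append, val_cons hm (f + j, b) (hl j List.mem_cons_self), ih,
      List.map_cons, List.prod_cons]
    rfl

section words

variable {E : Type*} [Monoid E]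

theorem prod_reverse (s : ℕ → E) : ∀ j, ((List.range j).reverse.map s).prod = RR s j
  | 0 => rfl
  | j + 1 => by
    rw [List.range_succ, List.reverse_append, List.map_append, List.prod_append,
      prod_reverse s j]
    simp [RR]

theorem prod_halfTwist_aux (s : ℕ → E) : ∀ n,
    (((List.range n).flatMap fun j => (List.range (j + 1)).reverse).map s).prod = HH s (n + 1)
  | 0 => by simp [HH, RR]
  | n + 1 => by
    rw [List.range_succ, List.flatMap_append, List.map_append, List.prod_append,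
      prod_halfTwist_aux s n, List.flatMap_singleton, prod_reverse]
    rfl

theorem prod_halfTwist (s : ℕ → E) (k : ℕ) : ((halfTwist k).map s).prod = HH s k := by
  cases k with
  | zero => rfl
  | succ k =>
    unfold halfTwist
    rw [Nat.add_sub_cancel]
    exact prod_halfTwist_aux s k

theorem prod_replicate (s : ℕ → E) (l : List ℕ) : ∀ n,
    ((List.replicate n l).flatten.map s).prod = (l.map s).prod ^ n
  | 0 => by simp
  | n + 1 => by
    rw [List.replicate_succ, List.flatten_cons, List.map_append, List.prod_append,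
      prod_replicate s l n, pow_succ']

end words

theorem mem_halfTwist {j k : ℕ} (h : j ∈ halfTwist k) : j + 1 < k := by
  unfold halfTwist at h
  rw [List.mem_flatMap] at h
  obtain ⟨i, hi, hj⟩ := h
  rw [List.mem_range] at hi
  rw [List.mem_reverse, List.mem_range] at hj
  omega

/-- The generators of the region. -/
noncomputable def gen (m : ℕ) (r : Region) : ℕ → Op m :=
  sg (tu (sgn (decide (0 < r.halfTwists)))) (fun j => UU m (r.first + j))

theorem val_region (hm : 0 < m) (r : Region) (hr : r.first + r.strands ≤ m)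
    (rest : List (ℕ × Bool)) :
    (val (r.crossings ++ rest) : Closure m → ℤ[T;T⁻¹]) =
      (HH (gen m r) r.strands ^ r.halfTwists.natAbs) (val rest) := by
  unfold Region.crossings
  rw [val_map hm r.first _ rest, prod_replicate, prod_halfTwist]
  · rfl
  · intro j hj
    rw [List.mem_flatten] at hj
    obtain ⟨l, hl, hj⟩ := hj
    rw [List.mem_replicate] at hl
    rw [hl.2] at hj
    have := mem_halfTwist hj
    omega

theorem dl_tu {ε : ℤ} (hε : ε = 1 ∨ ε = -1) : dl (tu ε) = delta := by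
  unfold dl delta
  rw [tu_val, tu_inv, T_pow, T_pow]
  rcases hε with rfl | rfl
  · norm_num
  · norm_num
    ring

/-- The number of factors. -/
def Mr (r : Region) : ℕ := (r.strands / 2 + 1) * (r.strands / 2)

/-- The bound of the norm. -/
def Kr (r : Region) : ℕ :=
  (r.strands / 2 + 1) * (2 ^ (r.strands / 2 * (r.strands / 2)) *
    (3 ^ (r.strands * (r.strands - 1)) + 1) ^ (r.strands / 2)) * 3 ^ r.strands.choose 2

theorem good_disc {ε : ℤ} (hε : ε = 1 ∨ ε = -1) (k : ℕ) :
    Good ((k / 2 + 1) * (k / 2)) (disc (lam (tu ε) k) (k / 2)) := by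
  have h1 := Good.prod (range (k / 2 + 1)) (fun j => dif (lam (tu ε) k) (k / 2) j) (k / 2) ?_
  · rwa [Finset.card_range] at h1
  · intro j hj
    have h2 := Good.prod ((range (k / 2 + 1)).erase j)
      (fun l => lam (tu ε) k j - lam (tu ε) k l) 1 ?_
    · rwa [Finset.card_erase_of_mem hj, Finset.card_range, Nat.add_sub_cancel, mul_one] at h2
    · intro l hl
      rw [Finset.mem_erase, Finset.mem_range] at hl
      rw [Finset.mem_range] at hj
      rw [lam_tu, lam_tu]
      apply Good.diff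
      · intro h3
        exact hl.1 (ex_inj hε (by omega) (by omega) h3).symm
      · rw [ex_sub]
        exact Dvd.intro _ rfl

theorem region_bound (r : Region) (hr : r.first + r.strands ≤ m) (n : ℕ) :
    ∃ q : ℤ[T;T⁻¹], Good (Mr r) q ∧ OpB (q • HH (gen m r) r.strands ^ n) (Kr r) := by
  obtain ⟨ε, hε, hgen⟩ : ∃ ε : ℤ, (ε = 1 ∨ ε = -1) ∧
      gen m r = sg (tu ε) (fun j => UU m (r.first + j)) := by
    refine ⟨sgn (decide (0 < r.halfTwists)), ?_, rfl⟩
    unfold sgn
    split_ifs
    · exact Or.inl rfl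
    · exact Or.inr rfl
  have hTL : TL (dl (tu ε)) r.strands (fun j => UU m (r.first + j)) := by
    rw [dl_tu hε]
    exact TL_UU hr
  have hann := aeval_ann (tu ε) r.strands _ hTL
  have hsq := HH_sq hTL.br r.strands le_rfl
  rw [← hgen] at hann hsq
  have hs : ∀ j, OpB (gen m r j) 3 := by
    intro j
    rw [hgen]
    exact OpB_sg (OpB_UU _)
  refine ⟨disc (lam (tu ε) r.strands) (r.strands / 2), good_disc hε r.strands, ?_⟩
  have hx : ∀ j n, l1 (lam (tu ε) r.strands j ^ n) ≤ 1 := by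
    intro j n
    rw [lam_tu, T_pow, l1_T]
  have hinj : ∀ i ∈ range (r.strands / 2 + 1), ∀ j ∈ range (r.strands / 2 + 1),
      lam (tu ε) r.strands i = lam (tu ε) r.strands j → i = j := by
    intro i hi j hj h
    rw [Finset.mem_range] at hi hj
    rw [lam_tu, lam_tu] at h
    exact ex_inj hε (by omega) (by omega) (T_inj h)
  have h1 := OpB_pow (OpB_FF hs r.strands) hx hinj hann (n / 2)
  have h2 : OpB (HH (gen m r) r.strands ^ (n % 2)) (3 ^ r.strands.choose 2) := by
    have h3 := OpB_HH hs r.strands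
    rcases Nat.mod_two_eq_zero_or_one n with h4 | h4
    · rw [h4, pow_zero]
      exact OpB.one.mono (Nat.one_le_pow _ _ (by norm_num))
    · rw [h4, pow_one]
      exact h3
  have h3 : HH (gen m r) r.strands ^ n =
      FF (gen m r) r.strands ^ (n / 2) * HH (gen m r) r.strands ^ (n % 2) := by
    rw [← hsq, ← pow_two, ← pow_mul, ← pow_add, Nat.div_add_mod]
  rw [h3, ← smul_mul_assoc]
  exact h1.mul h2

theorem regions_bound (hm : 0 < m) : ∀ rs : List Region, (∀ r ∈ rs, r.first + r.strands ≤ m) →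
    ∃ q : ℤ[T;T⁻¹], Good (rs.map Mr).sum q ∧
      ∀ μ : Closure m, l1 (q * val (rs.flatMap Region.crossings) μ) ≤ (rs.map Kr).prod * 2 ^ m
  | [], _ => by
    refine ⟨1, Good.one, fun μ => ?_⟩
    rw [List.map_nil, List.prod_nil, one_mul, one_mul]
    change l1 (delta * bracket [] μ) ≤ 2 ^ m
    rw [delta_bracket_nil hm]
    refine (l1_pow_le _ _).trans ((Nat.pow_le_pow_left l1_delta _).trans ?_)
    exact Nat.pow_le_pow_right (by norm_num) (cyc_le μ)
  | r :: rs, hrs => by
    obtain ⟨q, hq, hq'⟩ := regions_bound hm rs fun r' h => hrs r' (List.mem_cons_of_mem _ h)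
    have hr := hrs r List.mem_cons_self
    obtain ⟨q₁, h1, h2⟩ := region_bound r hr r.halfTwists.natAbs
    refine ⟨q₁ * q, ?_, fun μ => ?_⟩
    · rw [List.map_cons, List.sum_cons]
      exact h1.mul hq
    · rw [List.flatMap_cons, val_region hm r hr]
      have h3 := h2 (q • (val (rs.flatMap Region.crossings) : Closure m → ℤ[T;T⁻¹]))
        ((rs.map Kr).prod * 2 ^ m) (fun ν => hq' ν) μ
      rw [map_smul] at h3
      rw [List.map_cons, List.prod_cons, mul_assoc, mul_assoc]
      refine le_trans (le_of_eq ?_) h3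
      congr 1
      change q₁ * (q * _) = q * (q₁ * _)
      ring

namespace Diagram

variable (D : Diagram m)

/-- The bound for the determinant. -/
theorem det_le (hm : 0 < m) (V : ℤ[T;T⁻¹]) (hV : D.IsJones V) :
    (atNegOne V).natAbs ≤ (D.regions.map Kr).prod * 2 ^ m *
      ((D.regions.map Mr).sum + 1 + span V).choose ((D.regions.map Mr).sum + 1) := by
  obtain ⟨w, hw⟩ := hV
  obtain ⟨q, hq, hq'⟩ := regions_bound hm D.regions D.valid
  refine atNegOne_le_good hq (v := C (Int.negOnePow w : ℤ) * T (-3 * w)) ?_ hw (hq' D.closure)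
  rw [l1_C_mul_T]
  exact le_of_eq (Int.units_natAbs _)

theorem Kr_le (r : Region) (s : ℕ) (hs : 2 ≤ s) :
    Kr r * s ^ (2 * Mr r) ≤ s ^ (2 * r.strands ^ 3) := by
  obtain ⟨k, hk⟩ : ∃ k, k = r.strands := ⟨_, rfl⟩
  obtain ⟨h, hh⟩ : ∃ h, h = k / 2 := ⟨_, rfl⟩
  unfold Kr Mr
  rw [← hk, ← hh]
  have hs1 : 1 ≤ s := by omega
  have e1 : h + 1 ≤ s ^ h := by
    calc h + 1 ≤ 2 ^ h := Nat.lt_two_pow_self
      _ ≤ s ^ h := Nat.pow_le_pow_left hs h
  have e2 : 2 ^ (h * h) ≤ s ^ (h * h) := Nat.pow_le_pow_left hs _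
  have e34 : ∀ a, 3 ^ a ≤ s ^ (2 * a) := by
    intro a
    rw [pow_mul]
    refine Nat.pow_le_pow_left ?_ a
    nlinarith
  have e3 : (3 ^ (k * (k - 1)) + 1) ^ h ≤ s ^ (2 * (k * (k - 1)) * h) := by
    rcases Nat.eq_zero_or_pos h with h0 | h0
    · rw [h0, pow_zero, mul_zero, pow_zero]
    · rw [pow_mul s (2 * (k * (k - 1))) h]
      refine Nat.pow_le_pow_left ?_ h
      obtain ⟨a, ha⟩ : ∃ a, k * (k - 1) = a + 1 := by
        have h2 : 2 ≤ k := by omega
        obtain ⟨b, rfl⟩ : ∃ b, k = b + 2 := ⟨k - 2, by omega⟩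
        exact ⟨(b + 2) * (b + 1) - 1, by
          rw [show b + 2 - 1 = b + 1 by omega]
          have : 0 < (b + 2) * (b + 1) := by positivity
          omega⟩
      rw [ha]
      calc 3 ^ (a + 1) + 1 ≤ 4 ^ (a + 1) := by
            rw [pow_succ, pow_succ]
            have h5 : 3 ^ a ≤ 4 ^ a := Nat.pow_le_pow_left (by norm_num) a
            have h6 : 1 ≤ 3 ^ a := Nat.one_le_pow _ _ (by norm_num)
            omega
        _ = 2 ^ (2 * (a + 1)) := by rw [pow_mul]; norm_num
        _ ≤ s ^ (2 * (a + 1)) := Nat.pow_le_pow_left hs _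
  have e4 : 3 ^ k.choose 2 ≤ s ^ (2 * k.choose 2) := e34 _
  have hc : 2 * k.choose 2 = k * (k - 1) := by
    rw [Nat.choose_two_right]
    exact Nat.mul_div_cancel' (Nat.even_mul_pred_self k).two_dvd
  have e5 : h + (h * h + 2 * (k * (k - 1)) * h) + 2 * k.choose 2 + 2 * ((h + 1) * h) ≤
      2 * k ^ 3 := by
    rw [hc]
    rcases Nat.even_or_odd' k with ⟨c, hc1 | hc1⟩
    · have hc2 : h = c := by omega
      subst hc2
      rw [hc1]
      rcases Nat.eq_zero_or_pos h with h0 | h0
      · norm_num [h0]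
      · obtain ⟨d, rfl⟩ : ∃ d, h = d + 1 := ⟨h - 1, by omega⟩
        rw [show 2 * (d + 1) - 1 = 2 * d + 1 by omega]
        nlinarith [Nat.zero_le (d ^ 3), Nat.zero_le (d ^ 2), Nat.zero_le d]
    · have hc2 : h = c := by omega
      subst hc2
      rw [hc1, Nat.add_sub_cancel]
      nlinarith [Nat.zero_le (h ^ 3), Nat.zero_le (h ^ 2), Nat.zero_le h]
  calc (h + 1) * (2 ^ (h * h) * (3 ^ (k * (k - 1)) + 1) ^ h) * 3 ^ k.choose 2 *
        s ^ (2 * ((h + 1) * h))
      ≤ s ^ h * (s ^ (h * h) * s ^ (2 * (k * (k - 1)) * h)) * s ^ (2 * k.choose 2) *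
        s ^ (2 * ((h + 1) * h)) := by
        refine Nat.mul_le_mul_right _ (Nat.mul_le_mul (Nat.mul_le_mul e1 (Nat.mul_le_mul e2 e3)) e4)
    _ = s ^ (h + (h * h + 2 * (k * (k - 1)) * h) + 2 * k.choose 2 + 2 * ((h + 1) * h)) := by
        rw [pow_add, pow_add, pow_add, pow_add]
    _ ≤ s ^ (2 * k ^ 3) := Nat.pow_le_pow_right hs1 e5

theorem prod_Kr_le (s : ℕ) (hs : 2 ≤ s) : ∀ rs : List Region,
    (rs.map Kr).prod * s ^ (2 * (rs.map Mr).sum) ≤
      s ^ (2 * (rs.map fun r => r.strands ^ 3).sum)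
  | [] => by simp
  | r :: rs => by
    rw [List.map_cons, List.prod_cons, List.map_cons, List.sum_cons, List.map_cons, List.sum_cons,
      mul_add, mul_add, pow_add, pow_add]
    calc Kr r * (rs.map Kr).prod * (s ^ (2 * Mr r) * s ^ (2 * (rs.map Mr).sum))
        = (Kr r * s ^ (2 * Mr r)) * ((rs.map Kr).prod * s ^ (2 * (rs.map Mr).sum)) := by ring
      _ ≤ _ := Nat.mul_le_mul (Kr_le r s hs) (prod_Kr_le s hs rs)

/-- The bound for the determinant by a power of the span. -/
theorem det_le_pow (hm : 0 < m) (V : ℤ[T;T⁻¹]) (hV : D.IsJones V) (hs : 2 ≤ span V) :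
    (atNegOne V).natAbs ≤ span V ^ (3 * m + 2 * D.cubes) := by
  refine (D.det_le hm V hV).trans ?_
  obtain ⟨s, hsdef⟩ : ∃ s, s = span V := ⟨_, rfl⟩
  rw [← hsdef] at hs ⊢
  obtain ⟨M, hM⟩ : ∃ M, M = (D.regions.map Mr).sum := ⟨_, rfl⟩
  have h1 := prod_Kr_le s hs D.regions
  rw [← hM] at h1 ⊢
  have h2 : (M + 1 + s).choose (M + 1) ≤ s ^ (2 * (M + 1)) := by
    refine (choose_le_pow (M + 1) s).trans ?_
    rw [pow_mul]
    refine Nat.pow_le_pow_left ?_ _
    nlinarith
  have h3 : 2 ^ m ≤ s ^ m := Nat.pow_le_pow_left hs m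
  calc (D.regions.map Kr).prod * 2 ^ m * (M + 1 + s).choose (M + 1)
      ≤ (D.regions.map Kr).prod * s ^ m * s ^ (2 * (M + 1)) :=
        Nat.mul_le_mul (Nat.mul_le_mul_left _ h3) h2
    _ = ((D.regions.map Kr).prod * s ^ (2 * M)) * s ^ (m + 2) := by
        rw [mul_add, pow_add, pow_add]
        ring
    _ ≤ s ^ (2 * D.cubes) * s ^ (m + 2) := Nat.mul_le_mul_right _ h1
    _ = s ^ (m + 2 + 2 * D.cubes) := by
        rw [← pow_add]
        congr 1
        ring
    _ ≤ s ^ (3 * m + 2 * D.cubes) := Nat.pow_le_pow_right (by omega) (by omega)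

/-- The bound for the quotient. -/
theorem quotient_le (hm : 0 < m) (V : ℤ[T;T⁻¹]) (hV : D.IsJones V) (hs : 2 ≤ span V) :
    quotient V ≤ 3 * m + 2 * D.cubes := by
  unfold quotient
  have h1 := D.det_le_pow hm V hV hs
  obtain ⟨s, hsdef⟩ : ∃ s, s = span V := ⟨_, rfl⟩
  rw [← hsdef] at hs h1 ⊢
  have hlog : 0 < Real.log s := Real.log_pos (by exact_mod_cast (by omega : 1 < s))
  rw [div_le_iff₀ hlog]
  by_cases h0 : atNegOne V = 0
  · rw [h0]
    simp only [Int.cast_zero, abs_zero, Real.log_zero]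
    positivity
  · have h3 : |(atNegOne V : ℝ)| ≤ (s : ℝ) ^ (3 * m + 2 * D.cubes) := by
      have : ((atNegOne V).natAbs : ℝ) ≤ ((s ^ (3 * m + 2 * D.cubes) : ℕ) : ℝ) := by
        exact_mod_cast h1
      rw [Nat.cast_natAbs, Int.cast_abs] at this
      push_cast at this
      exact this
    have h4 : 0 < |(atNegOne V : ℝ)| := abs_pos.mpr (by exact_mod_cast h0)
    calc Real.log |(atNegOne V : ℝ)| ≤ Real.log ((s : ℝ) ^ (3 * m + 2 * D.cubes)) :=
          Real.log_le_log h4 h3
      _ = (3 * m + 2 * D.cubes) * Real.log s := by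
        rw [Real.log_pow]
        push_cast
        ring

end Diagram

end MP_fc1011_gt.MV
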