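import Pool.Agent.Lib.MP_fc1011_gt.MV.Ops

/-!
# MP_fc1011_gt, multi-strand twist regions: the norm of a region
-/

set_option autoImplicit false

namespace MP_fc1011_gt.MV

open LaurentPolynomial Finset

section lagrange

variable {S : Type*} [CommRing S] [IsDomain S]

/-- the product of the differences `x j - x l`, `l ≠ j` -/
noncomputable def dif (x : ℕ → S) (h j : ℕ) : S := ∏ l ∈ (range (h + 1)).erase j, (x j - x l)

/-- the product of all differences -/
noncomputable def disc (x : ℕ → S) (h : ℕ) : S := ∏ j ∈ range (h + 1), dif x h j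

/-- the product of the differences without those of `j` -/
noncomputable def disc' (x : ℕ → S) (h j : ℕ) : S := ∏ i ∈ (range (h + 1)).erase j, dif x h i

/-- the Lagrange polynomial (not normalized) -/
noncomputable def lag (x : ℕ → S) (h j : ℕ) : Polynomial S :=
  ∏ l ∈ (range (h + 1)).erase j, (Polynomial.X - Polynomial.C (x l))

theorem lagrange (x : ℕ → S) (h : ℕ) (hx : ∀ i ∈ range (h + 1), ∀ j ∈ range (h + 1),
    x i = x j → i = j) (n : ℕ) :
    (∏ j ∈ range (h + 1), (Polynomial.X - Polynomial.C (x j))) ∣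
      (Polynomial.C (disc x h) * Polynomial.X ^ n -
        ∑ j ∈ range (h + 1), Polynomial.C (x j ^ n * disc' x h j) * lag x h j) := by
  obtain ⟨g, hg⟩ : ∃ g, g = Polynomial.C (disc x h) * Polynomial.X ^ n -
        ∑ j ∈ range (h + 1), Polynomial.C (x j ^ n * disc' x h j) * lag x h j := ⟨_, rfl⟩
  rw [← hg]
  have hroot : ∀ i ∈ range (h + 1), g.eval (x i) = 0 := by
    intro i hi
    have h1 : ∀ j, (lag x h j).eval (x i) = ∏ l ∈ (range (h + 1)).erase j, (x i - x l) := by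
      intro j
      unfold lag
      rw [Polynomial.eval_prod]
      exact Finset.prod_congr rfl fun l _ => by simp
    rw [hg, Polynomial.eval_sub, Polynomial.eval_mul, Polynomial.eval_C, Polynomial.eval_pow,
      Polynomial.eval_X, Polynomial.eval_finsetSum, Finset.sum_eq_single i]
    · rw [Polynomial.eval_mul, Polynomial.eval_C, h1]
      have h2 : disc x h = dif x h i * disc' x h i :=
        (Finset.mul_prod_erase (range (h + 1)) (fun j => dif x h j) hi).symm
      rw [h2]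
      unfold dif
      ring
    · intro j _ hj
      rw [Polynomial.eval_mul, h1, Finset.prod_eq_zero (Finset.mem_erase.mpr ⟨hj.symm, hi⟩)
        (sub_self _), mul_zero]
    · intro h3
      exact absurd hi h3
  by_cases hg0 : g = 0
  · rw [hg0]
    exact dvd_zero _
  · have h2 : (∏ j ∈ range (h + 1), (Polynomial.X - Polynomial.C (x j))) =
        (((range (h + 1)).val.map x).map fun a => Polynomial.X - Polynomial.C a).prod := by
      rw [Multiset.map_map]
      rfl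
    rw [h2, Multiset.prod_X_sub_C_dvd_iff_le_roots hg0]
    rw [Multiset.le_iff_subset]
    · intro a ha
      rw [Multiset.mem_map] at ha
      obtain ⟨i, hi, rfl⟩ := ha
      rw [Polynomial.mem_roots hg0]
      exact hroot i hi
    · exact Multiset.Nodup.map_on (fun i hi j hj h3 => hx i hi j hj h3) (range (h + 1)).nodup

theorem lagrange_aeval {E : Type*} [Ring E] [Algebra S E] (x : ℕ → S) (h : ℕ)
    (hx : ∀ i ∈ range (h + 1), ∀ j ∈ range (h + 1), x i = x j → i = j) (F : E)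
    (hF : Polynomial.aeval F (∏ j ∈ range (h + 1), (Polynomial.X - Polynomial.C (x j))) = 0)
    (n : ℕ) : disc x h • F ^ n =
      ∑ j ∈ range (h + 1), (x j ^ n * disc' x h j) • Polynomial.aeval F (lag x h j) := by
  obtain ⟨r, hr⟩ := lagrange x h hx n
  have h1 := congrArg (Polynomial.aeval F) hr
  rw [map_mul, hF, zero_mul, map_sub, map_sum, map_mul, map_pow, Polynomial.aeval_C,
    Polynomial.aeval_X, ← Algebra.smul_def] at h1
  rw [sub_eq_zero.mp h1]
  refine Finset.sum_congr rfl fun j _ => ?_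
  rw [map_mul, Polynomial.aeval_C, ← Algebra.smul_def]

end lagrange

variable {m : ℕ}

/-- The operators on the functions of pairings. -/
abbrev Op (m : ℕ) := Module.End ℤ[T;T⁻¹] (Closure m → ℤ[T;T⁻¹])

/-- The norm of the operator is at most `N`. -/
def OpB (F : Op m) (N : ℕ) : Prop :=
  ∀ (φ : Closure m → ℤ[T;T⁻¹]) (B : ℕ), (∀ μ, l1 (φ μ) ≤ B) → ∀ μ, l1 (F φ μ) ≤ N * B

theorem OpB.one : OpB (1 : Op m) 1 := fun φ B h μ => by
  rw [one_mul]
  exact h μ

theorem OpB.mono {F : Op m} {N N' : ℕ} (h : OpB F N) (hN : N ≤ N') : OpB F N' :=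
  fun φ B hφ μ => (h φ B hφ μ).trans (Nat.mul_le_mul_right _ hN)

theorem OpB.mul {F G : Op m} {N N' : ℕ} (hF : OpB F N) (hG : OpB G N') :
    OpB (F * G) (N * N') := fun φ B h μ => by
  rw [mul_assoc]
  exact hF (G φ) (N' * B) (hG φ B h) μ

theorem OpB.add {F G : Op m} {N N' : ℕ} (hF : OpB F N) (hG : OpB G N') :
    OpB (F + G) (N + N') := fun φ B h μ => by
  rw [add_mul]
  exact (l1_add_le _ _).trans (Nat.add_le_add (hF φ B h μ) (hG φ B h μ))

theorem OpB.smul {F : Op m} {N : ℕ} (hF : OpB F N) (a : ℤ[T;T⁻¹]) :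
    OpB (a • F) (l1 a * N) := fun φ B h μ => by
  rw [mul_assoc]
  exact (l1_mul_le _ _).trans (Nat.mul_le_mul_left _ (hF φ B h μ))

theorem OpB.smul_le {F : Op m} {N c : ℕ} (hF : OpB F N) {a : ℤ[T;T⁻¹]} (ha : l1 a ≤ c) :
    OpB (a • F) (c * N) := (hF.smul a).mono (Nat.mul_le_mul_right _ ha)

theorem OpB.pow {F : Op m} {N : ℕ} (hF : OpB F N) : ∀ n, OpB (F ^ n) (N ^ n)
  | 0 => OpB.one
  | n + 1 => by
    rw [pow_succ, pow_succ]
    exact (OpB.pow hF n).mul hF

theorem OpB.sum {ι : Type*} (s : Finset ι) (F : ι → Op m) (N : ℕ)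
    (h : ∀ i ∈ s, OpB (F i) N) : OpB (∑ i ∈ s, F i) (s.card * N) := by
  classical
  induction s using Finset.induction_on with
  | empty =>
    intro φ B _ μ
    rw [Finset.sum_empty, Finset.card_empty, zero_mul, zero_mul]
    change l1 0 ≤ 0
    rw [l1_zero]
  | insert a s ha ih =>
    rw [Finset.sum_insert ha, Finset.card_insert_of_notMem ha, add_mul, one_mul, add_comm]
    exact (ih fun i hi => h i (Finset.mem_insert_of_mem hi)).add (h a (Finset.mem_insert_self a s))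

theorem OpB_UU (i : ℕ) : OpB (UU m i) 2 := fun φ B h μ => by
  rw [UU_apply]
  refine (l1_mul_le _ _).trans (Nat.mul_le_mul ?_ (h _))
  have h1 : lp μ i ≤ 1 := by
    unfold lp
    split_ifs
    · exact le_refl _
    · exact Nat.zero_le _
  refine (l1_pow_le _ _).trans ?_
  calc l1 delta ^ lp μ i ≤ 2 ^ lp μ i := Nat.pow_le_pow_left l1_delta _
    _ ≤ 2 ^ 1 := Nat.pow_le_pow_right (by norm_num) h1
    _ = 2 := by norm_num

/-- The unit `T a`. -/
noncomputable def tu (a : ℤ) : ℤ[T;T⁻¹]ˣ where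
  val := T a
  inv := T (-a)
  val_inv := by rw [← T_add, add_neg_cancel, T_zero]
  inv_val := by rw [← T_add, neg_add_cancel, T_zero]

theorem tu_val (a : ℤ) : ((tu a : ℤ[T;T⁻¹]ˣ) : ℤ[T;T⁻¹]) = T a := rfl

theorem tu_inv (a : ℤ) : (((tu a)⁻¹ : ℤ[T;T⁻¹]ˣ) : ℤ[T;T⁻¹]) = T (-a) := rfl

theorem tu_zpow (a z : ℤ) : ((tu a ^ z : ℤ[T;T⁻¹]ˣ) : ℤ[T;T⁻¹]) = T (a * z) := by
  cases z with
  | ofNat n =>
    rw [Int.ofNat_eq_natCast, zpow_natCast, Units.val_pow_eq_pow_val, tu_val, T_pow]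
    congr 1
    ring
  | negSucc n =>
    rw [zpow_negSucc, ← inv_pow, Units.val_pow_eq_pow_val, tu_inv, T_pow]
    congr 1
    rw [Int.negSucc_eq]
    push_cast
    ring

theorem T_inj {a b : ℤ} (h : (T a : ℤ[T;T⁻¹]) = T b) : a = b := by
  by_contra hab
  have h1 : (T a : ℤ[T;T⁻¹]).coeff a = (T b : ℤ[T;T⁻¹]).coeff a := by rw [h]
  have h2 : (T a : ℤ[T;T⁻¹]).coeff a = 1 := by
    change (AddMonoidAlgebra.single a (1 : ℤ)).coeff a = 1
    rw [AddMonoidAlgebra.coeff_single, Finsupp.single_eq_same]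
  have h3 : (T b : ℤ[T;T⁻¹]).coeff a = 0 := by
    change (AddMonoidAlgebra.single b (1 : ℤ)).coeff a = 0
    rw [AddMonoidAlgebra.coeff_single, Finsupp.single_eq_of_ne]
    exact hab
  rw [h2, h3] at h1
  exact one_ne_zero h1

/-- the exponent of the eigenvalue -/
def ex (ε : ℤ) (k j : ℕ) : ℤ := ε * (((k : ℤ) - 2 * j) ^ 2 + 2 * ((k : ℤ) - 2 * j) - 3 * k)

theorem lam_tu (ε : ℤ) (k j : ℕ) : lam (tu ε) k j = T (ex ε k j) := tu_zpow ε _

theorem ex_sub {ε : ℤ} (k i j : ℕ) : ex ε k i - ex ε k j =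
    4 * (ε * (((j : ℤ) - i) * ((k : ℤ) + 1 - i - j))) := by
  unfold ex
  ring

theorem ex_inj {ε : ℤ} (hε : ε = 1 ∨ ε = -1) {k i j : ℕ} (hi : i ≤ k / 2) (hj : j ≤ k / 2)
    (h : ex ε k i = ex ε k j) : i = j := by
  have h1 := ex_sub (ε := ε) k i j
  rw [h, sub_self] at h1
  have h2 : ((j : ℤ) - i) * ((k : ℤ) + 1 - i - j) = 0 := by
    rcases hε with rfl | rfl
    · omega
    · omega
  rcases mul_eq_zero.mp h2 with h3 | h3
  · omega
  · omega

theorem l1_dif_le {x : ℕ → ℤ[T;T⁻¹]} (hx : ∀ j, l1 (x j) ≤ 1) {h j : ℕ} (hj : j ∈ range (h + 1)) :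
    l1 (dif x h j) ≤ 2 ^ h := by
  unfold dif
  refine (l1_prod_le _ _).trans ?_
  have h1 : ((range (h + 1)).erase j).card = h := by
    rw [Finset.card_erase_of_mem hj, Finset.card_range, Nat.add_sub_cancel]
  calc ∏ l ∈ (range (h + 1)).erase j, l1 (x j - x l) ≤ ∏ _l ∈ (range (h + 1)).erase j, 2 := by
        refine Finset.prod_le_prod' fun l _ => (l1_sub_le _ _).trans ?_
        have := hx j
        have := hx l
        omega
    _ = 2 ^ h := by rw [Finset.prod_const, h1]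

theorem l1_disc'_le {x : ℕ → ℤ[T;T⁻¹]} (hx : ∀ j, l1 (x j) ≤ 1) {h j : ℕ}
    (hj : j ∈ range (h + 1)) : l1 (disc' x h j) ≤ 2 ^ (h * h) := by
  unfold disc'
  refine (l1_prod_le _ _).trans ?_
  have h1 : ((range (h + 1)).erase j).card = h := by
    rw [Finset.card_erase_of_mem hj, Finset.card_range, Nat.add_sub_cancel]
  calc ∏ i ∈ (range (h + 1)).erase j, l1 (dif x h i) ≤ ∏ _i ∈ (range (h + 1)).erase j, 2 ^ h :=
        Finset.prod_le_prod' fun i hi => l1_dif_le hx (Finset.mem_of_mem_erase hi)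
    _ = 2 ^ (h * h) := by rw [Finset.prod_const, h1, ← pow_mul]

theorem OpB_aeval_prod {F : Op m} {N : ℕ} (hF : OpB F N) {x : ℕ → ℤ[T;T⁻¹]}
    (hx : ∀ j, l1 (x j) ≤ 1) (s : Finset ℕ) :
    OpB (Polynomial.aeval F (∏ l ∈ s, (Polynomial.X - Polynomial.C (x l)))) ((N + 1) ^ s.card) := by
  classical
  induction s using Finset.induction_on with
  | empty =>
    rw [Finset.prod_empty, map_one, Finset.card_empty, pow_zero]
    exact OpB.one
  | insert a s ha ih =>
    rw [Finset.prod_insert ha, map_mul, Finset.card_insert_of_notMem ha, pow_succ', map_sub,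
      Polynomial.aeval_X, Polynomial.aeval_C, sub_eq_add_neg, ← map_neg]
    refine OpB.mul (hF.add ?_) ih
    have h1 : (algebraMap ℤ[T;T⁻¹] (Op m)) (-x a) = (-x a) • (1 : Op m) := by
      rw [Algebra.algebraMap_eq_smul_one]
    rw [h1]
    have h2 : l1 (-x a) ≤ 1 := by
      rw [l1_neg]
      exact hx a
    exact (OpB.one.smul_le h2).mono (by norm_num)

theorem OpB_lag {F : Op m} {N : ℕ} (hF : OpB F N) {x : ℕ → ℤ[T;T⁻¹]}
    (hx : ∀ j, l1 (x j) ≤ 1) {h j : ℕ} (hj : j ∈ range (h + 1)) :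
    OpB (Polynomial.aeval F (lag x h j)) ((N + 1) ^ h) := by
  have h1 : ((range (h + 1)).erase j).card = h := by
    rw [Finset.card_erase_of_mem hj, Finset.card_range, Nat.add_sub_cancel]
  have h2 := OpB_aeval_prod hF hx ((range (h + 1)).erase j)
  rwa [h1] at h2

/-- All powers of an annihilated operator, multiplied by the discriminant, are bounded. -/
theorem OpB_pow {F : Op m} {N : ℕ} (hF : OpB F N) {x : ℕ → ℤ[T;T⁻¹]}
    (hx : ∀ j n, l1 (x j ^ n) ≤ 1) {h : ℕ}
    (hinj : ∀ i ∈ range (h + 1), ∀ j ∈ range (h + 1), x i = x j → i = j)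
    (hF0 : Polynomial.aeval F (∏ j ∈ range (h + 1), (Polynomial.X - Polynomial.C (x j))) = 0)
    (n : ℕ) : OpB (disc x h • F ^ n) ((h + 1) * (2 ^ (h * h) * (N + 1) ^ h)) := by
  have hx1 : ∀ j, l1 (x j) ≤ 1 := fun j => by
    have := hx j 1
    rwa [pow_one] at this
  rw [lagrange_aeval x h hinj F hF0 n]
  have h1 := OpB.sum (range (h + 1))
    (fun j => (x j ^ n * disc' x h j) • Polynomial.aeval F (lag x h j))
    (2 ^ (h * h) * (N + 1) ^ h) (fun j hj => by
      refine OpB.smul_le (OpB_lag hF hx1 hj) ?_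
      refine (l1_mul_le _ _).trans ?_
      calc l1 (x j ^ n) * l1 (disc' x h j) ≤ 1 * 2 ^ (h * h) :=
            Nat.mul_le_mul (hx j n) (l1_disc'_le hx1 hj)
        _ = _ := one_mul _)
  rwa [Finset.card_range] at h1

theorem OpB_sg {ε : ℤ} {e : ℕ → Op m} {j : ℕ} (h : OpB (e j) 2) : OpB (sg (tu ε) e j) 3 := by
  unfold sg
  rw [tu_val, tu_inv]
  have h1 : OpB ((T ε : ℤ[T;T⁻¹]) • (1 : Op m)) 1 :=
    (OpB.one.smul_le (le_of_eq (l1_T ε))).mono (by norm_num)
  have h2 : OpB ((T (-ε) : ℤ[T;T⁻¹]) • e j) 2 :=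
    (h.smul_le (le_of_eq (l1_T (-ε)))).mono (by norm_num)
  exact h1.add h2

theorem OpB_JJ {s : ℕ → Op m} (h : ∀ j, OpB (s j) 3) : ∀ j, OpB (JJ s j) (3 ^ (2 * j))
  | 0 => OpB.one
  | j + 1 => by
    refine (((h j).mul (OpB_JJ h j)).mul (h j)).mono (le_of_eq ?_)
    rw [show 2 * (j + 1) = 2 * j + 2 by ring, pow_add]
    ring

theorem OpB_FF {s : ℕ → Op m} (h : ∀ j, OpB (s j) 3) : ∀ j, OpB (FF s j) (3 ^ (j * (j - 1)))
  | 0 => OpB.one
  | j + 1 => by
    refine ((OpB_FF h j).mul (OpB_JJ h j)).mono (le_of_eq ?_)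
    rw [← pow_add]
    congr 1
    rcases j with _ | j
    · rfl
    · simp only [Nat.add_sub_cancel]
      ring

theorem OpB_RR {s : ℕ → Op m} (h : ∀ j, OpB (s j) 3) : ∀ j, OpB (RR s j) (3 ^ j)
  | 0 => OpB.one
  | j + 1 => by
    refine ((h j).mul (OpB_RR h j)).mono (le_of_eq ?_)
    rw [pow_succ']

theorem OpB_HH {s : ℕ → Op m} (h : ∀ j, OpB (s j) 3) : ∀ j, OpB (HH s j) (3 ^ j.choose 2)
  | 0 => OpB.one
  | j + 1 => by
    refine ((OpB_HH h j).mul (OpB_RR h j)).mono (le_of_eq ?_)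
    rw [← pow_add]
    congr 1
    rw [Nat.choose_succ_succ' j 1, Nat.choose_one_right]
    ring

end MP_fc1011_gt.MV
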