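import Mathlib

/-!
# MP_fc1011_gt, multi-strand twist regions: full twists in the Temperley-Lieb algebra

In every ring with elements which satisfy the relations of the Temperley-Lieb algebra of `k` strands, the full
twist of the `k` strands is annihilated by the product of `X - A ^ (c ^ 2 + 2 c - 3 k)` over `c = k, k - 2, …`.
-/

set_option autoImplicit false

namespace MP_fc1011_gt.MV

open Polynomial

section words

variable {E : Type*} [Monoid E]

/-- The strand `j` goes once around the strands `0, …, j - 1`. -/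
def JJ (s : ℕ → E) : ℕ → E
  | 0 => 1
  | j + 1 => s j * JJ s j * s j

/-- The full twist of the first strands. -/
def FF (s : ℕ → E) : ℕ → E
  | 0 => 1
  | j + 1 => FF s j * JJ s j

/-- `s_(j-1) … s_0`. -/
def RR (s : ℕ → E) : ℕ → E
  | 0 => 1
  | j + 1 => s j * RR s j

/-- `s_0 … s_(j-1)`. -/
def LL (s : ℕ → E) : ℕ → E
  | 0 => 1
  | j + 1 => LL s j * s j

/-- The half twist of the first strands. -/
def HH (s : ℕ → E) : ℕ → E
  | 0 => 1
  | j + 1 => HH s j * RR s j

/-- The relations of the braid group. -/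
structure Br (k : ℕ) (s : ℕ → E) : Prop where
  brd : ∀ j, j + 2 < k → s j * s (j + 1) * s j = s (j + 1) * s j * s (j + 1)
  comm : ∀ i j, i + 2 ≤ j → j + 1 < k → Commute (s i) (s j)

theorem JJ_commute {s : ℕ → E} {x : E} : ∀ j, (∀ l, l < j → Commute (s l) x) →
    Commute (JJ s j) x
  | 0, _ => Commute.one_left x
  | j + 1, h => ((h j (Nat.lt_succ_self j)).mul_left
      (JJ_commute j fun l hl => h l (Nat.lt_succ_of_lt hl))).mul_left (h j (Nat.lt_succ_self j))

theorem RR_commute {s : ℕ → E} {x : E} : ∀ j, (∀ l, l < j → Commute (s l) x) →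
    Commute (RR s j) x
  | 0, _ => Commute.one_left x
  | j + 1, h => (h j (Nat.lt_succ_self j)).mul_left
      (RR_commute j fun l hl => h l (Nat.lt_succ_of_lt hl))

theorem FF_commute {s : ℕ → E} {x : E} : ∀ j, (∀ l, l + 1 < j → Commute (s l) x) →
    Commute (FF s j) x
  | 0, _ => Commute.one_left x
  | j + 1, h => (FF_commute j fun l hl => h l (by omega)).mul_left
      (JJ_commute j fun l hl => h l (by omega))

theorem HH_commute {s : ℕ → E} {x : E} : ∀ j, (∀ l, l + 1 < j → Commute (s l) x) →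
    Commute (HH s j) x
  | 0, _ => Commute.one_left x
  | j + 1, h => (HH_commute j fun l hl => h l (by omega)).mul_left
      (RR_commute j fun l hl => h l (by omega))

theorem JJ_comm {k : ℕ} {s : ℕ → E} (hs : Br k s) : ∀ j, j < k → ∀ i, i + 1 < j →
    Commute (s i) (JJ s j)
  | 0, _, i, hi => by omega
  | j + 1, hj, i, hi => by
    rcases Nat.lt_or_ge (i + 1) j with h | h
    · have h1 : Commute (s i) (s j) := hs.comm i j (by omega) (by omega)
      exact (h1.mul_right (JJ_comm hs j (by omega) i h)).mul_right h1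
    · obtain rfl : j = i + 1 := by omega
      have hb := hs.brd i (by omega)
      have hc : Commute (JJ s i) (s (i + 1)) :=
        JJ_commute i fun l hl => hs.comm l (i + 1) (by omega) (by omega)
      change s i * (s (i + 1) * (s i * JJ s i * s i) * s (i + 1)) =
        s (i + 1) * (s i * JJ s i * s i) * s (i + 1) * s i
      calc s i * (s (i + 1) * (s i * JJ s i * s i) * s (i + 1))
          = (s i * s (i + 1) * s i) * JJ s i * s i * s (i + 1) := by simp only [mul_assoc]
        _ = s (i + 1) * s i * (s (i + 1) * JJ s i) * s i * s (i + 1) := by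
            rw [hb]; simp only [mul_assoc]
        _ = s (i + 1) * s i * (JJ s i * s (i + 1)) * s i * s (i + 1) := by rw [hc.eq]
        _ = s (i + 1) * s i * JJ s i * (s (i + 1) * s i * s (i + 1)) := by
            simp only [mul_assoc]
        _ = s (i + 1) * s i * JJ s i * (s i * s (i + 1) * s i) := by rw [hb]
        _ = _ := by simp only [mul_assoc]

theorem FF_comm {k : ℕ} {s : ℕ → E} (hs : Br k s) : ∀ j, j ≤ k → ∀ i, i + 1 < j →
    Commute (s i) (FF s j)
  | 0, _, i, hi => by omega
  | j + 1, hj, i, hi => by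
    rcases Nat.lt_or_ge (i + 1) j with h | h
    · exact (FF_comm hs j (by omega) i h).mul_right (JJ_comm hs j (by omega) i h)
    · obtain rfl : j = i + 1 := by omega
      have h1 : Commute (FF s i) (s i) :=
        FF_commute i fun l hl => hs.comm l i (by omega) (by omega)
      have h2 : Commute (JJ s i) (s i * JJ s i * s i) :=
        JJ_commute i fun l hl => JJ_comm hs (i + 1) (by omega) l (by omega)
      have h3 := h2.eq
      change s i * (FF s i * JJ s i * (s i * JJ s i * s i)) =
        FF s i * JJ s i * (s i * JJ s i * s i) * s i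
      calc s i * (FF s i * JJ s i * (s i * JJ s i * s i))
          = (s i * FF s i) * JJ s i * (s i * JJ s i * s i) := by simp only [mul_assoc]
        _ = FF s i * (s i * JJ s i * s i * JJ s i) * s i := by
            rw [← h1.eq]; simp only [mul_assoc]
        _ = FF s i * (JJ s i * (s i * JJ s i * s i)) * s i := by rw [h3]
        _ = _ := by simp only [mul_assoc]

theorem JJ_eq (s : ℕ → E) : ∀ j, JJ s j = RR s j * LL s j
  | 0 => (one_mul 1).symm
  | j + 1 => by
    change s j * JJ s j * s j = s j * RR s j * (LL s j * s j)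
    rw [JJ_eq s j]
    simp only [mul_assoc]

theorem HH_eq {k : ℕ} {s : ℕ → E} (hs : Br k s) : ∀ j, j < k → HH s (j + 1) = LL s j * HH s j
  | 0, _ => by
    change 1 * 1 = 1 * (1 : E)
    rfl
  | j + 1, hj => by
    have h1 : Commute (HH s j) (s j) :=
      HH_commute j fun l hl => hs.comm l j (by omega) (by omega)
    have ih := HH_eq hs j (by omega)
    change HH s (j + 1) * (s j * RR s j) = LL s j * s j * (HH s j * RR s j)
    rw [ih]
    calc LL s j * HH s j * (s j * RR s j) = LL s j * (HH s j * s j) * RR s j := by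
          simp only [mul_assoc]
      _ = LL s j * (s j * HH s j) * RR s j := by rw [h1.eq]
      _ = _ := by simp only [mul_assoc]

/-- The square of the half twist is the full twist. -/
theorem HH_sq {k : ℕ} {s : ℕ → E} (hs : Br k s) : ∀ j, j ≤ k → HH s j * HH s j = FF s j
  | 0, _ => one_mul 1
  | j + 1, hj => by
    have h1 : Commute (HH s j) (JJ s j) :=
      HH_commute j fun l hl => JJ_comm hs j (by omega) l hl
    have ih := HH_sq hs j (by omega)
    calc HH s (j + 1) * HH s (j + 1) = (HH s j * RR s j) * (LL s j * HH s j) := by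
          rw [← HH_eq hs j (by omega)]
          rfl
      _ = HH s j * (RR s j * LL s j) * HH s j := by simp only [mul_assoc]
      _ = HH s j * (JJ s j * HH s j) := by rw [← JJ_eq, mul_assoc]
      _ = HH s j * (HH s j * JJ s j) := by rw [← h1.eq]
      _ = FF s j * JJ s j := by rw [← mul_assoc, ih]

end words

section algebra

variable {S E : Type*} [CommRing S] [Ring E] [Algebra S E]

/-- The relations of the Temperley-Lieb algebra of `k` strands. -/
structure TL (d : S) (k : ℕ) (e : ℕ → E) : Prop where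
  sq : ∀ j, j + 1 < k → e j * e j = d • e j
  up : ∀ j, j + 2 < k → e j * e (j + 1) * e j = e j
  dn : ∀ j, j + 2 < k → e (j + 1) * e j * e (j + 1) = e (j + 1)
  comm : ∀ i j, i + 2 ≤ j → j + 1 < k → e i * e j = e j * e i

/-- The value of a loop. -/
def dl (A : Sˣ) : S := -(A : S) ^ 2 - ((A⁻¹ : Sˣ) : S) ^ 2

/-- The crossing. -/
def sg (A : Sˣ) (e : ℕ → E) (j : ℕ) : E := (A : S) • (1 : E) + ((A⁻¹ : Sˣ) : S) • e j

private theorem expand3 (a b x y : S) (u v : E) :
    (a • (1 : E) + b • u) * (a • (1 : E) + b • v) * (x • (1 : E) + y • u) =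
      (a * a * x) • (1 : E) + (a * b * x) • u + (a * b * x) • v + (b * b * x) • (u * v) +
      (a * a * y) • u + (a * b * y) • (u * u) + (a * b * y) • (v * u) + (b * b * y) • (u * v * u) := by
  simp only [mul_add, add_mul, smul_mul_assoc, mul_smul_comm, smul_smul, mul_one, one_mul,
    smul_add]
  module

private theorem braid_expand (A : Sˣ) {u v : E} (huu : u * u = dl A • u)
    (huvu : u * v * u = u) :
    ((A : S) • (1 : E) + ((A⁻¹ : Sˣ) : S) • u) * ((A : S) • (1 : E) + ((A⁻¹ : Sˣ) : S) • v) *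
      ((A : S) • (1 : E) + ((A⁻¹ : Sˣ) : S) • u) =
      ((A : S) ^ 3) • (1 : E) + (A : S) • u + (A : S) • v + ((A⁻¹ : Sˣ) : S) • (u * v) +
        ((A⁻¹ : Sˣ) : S) • (v * u) := by
  have hA : (A : S) * ((A⁻¹ : Sˣ) : S) = 1 := A.mul_inv
  rw [expand3, huu, huvu, smul_smul]
  have h1 : (A : S) * ((A⁻¹ : Sˣ) : S) * (A : S) = A := by rw [hA, one_mul]
  have h2 : ((A⁻¹ : Sˣ) : S) * ((A⁻¹ : Sˣ) : S) * (A : S) = ((A⁻¹ : Sˣ) : S) := by
    linear_combination ((A⁻¹ : Sˣ) : S) * hA
  have h3 : (A : S) * (A : S) * ((A⁻¹ : Sˣ) : S) = A := by linear_combination (A : S) * hA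
  have h4 : (A : S) * ((A⁻¹ : Sˣ) : S) * ((A⁻¹ : Sˣ) : S) = ((A⁻¹ : Sˣ) : S) := by
    rw [hA, one_mul]
  have h5 : (A : S) * ((A⁻¹ : Sˣ) : S) * ((A⁻¹ : Sˣ) : S) * dl A =
      -(A : S) - ((A⁻¹ : Sˣ) : S) * ((A⁻¹ : Sˣ) : S) * ((A⁻¹ : Sˣ) : S) := by
    unfold dl
    linear_combination (-(A : S) ^ 2 * ((A⁻¹ : Sˣ) : S) - ((A⁻¹ : Sˣ) : S) ^ 3 - A) * hA
  rw [h5, h1, h2, h3, h4]
  module

private theorem sg_mul_self (A : Sˣ) {u : E} (huu : u * u = dl A • u) :
    ((A : S) • (1 : E) + ((A⁻¹ : Sˣ) : S) • u) * u = (-((A⁻¹ : Sˣ) : S) ^ 3) • u := by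
  have hA : (A : S) * ((A⁻¹ : Sˣ) : S) = 1 := A.mul_inv
  rw [add_mul, smul_mul_assoc, smul_mul_assoc, one_mul, huu, smul_smul, ← add_smul]
  congr 1
  unfold dl
  linear_combination (-(A : S)) * hA

private theorem sg_sg_mul (A : Sˣ) {u v : E} (huu : u * u = dl A • u) (huvu : u * v * u = u) :
    ((A : S) • (1 : E) + ((A⁻¹ : Sˣ) : S) • u) *
      (((A : S) • (1 : E) + ((A⁻¹ : Sˣ) : S) • v) * u) = v * u := by
  have hA : (A : S) * ((A⁻¹ : Sˣ) : S) = 1 := A.mul_inv
  have h1 : ((A : S) • (1 : E) + ((A⁻¹ : Sˣ) : S) • u) *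
      (((A : S) • (1 : E) + ((A⁻¹ : Sˣ) : S) • v) * u) =
      ((A : S) * A) • u + ((A : S) * ((A⁻¹ : Sˣ) : S)) • (v * u) +
        ((A : S) * ((A⁻¹ : Sˣ) : S)) • (u * u) +
        (((A⁻¹ : Sˣ) : S) * ((A⁻¹ : Sˣ) : S)) • (u * v * u) := by
    simp only [mul_add, add_mul, smul_mul_assoc, mul_smul_comm, smul_smul, one_mul,
      smul_add, mul_assoc]
    module
  rw [h1, huu, huvu, hA, one_smul, one_smul]
  unfold dl
  module

theorem sg_commute {A : Sˣ} {e : ℕ → E} {i : ℕ} {x : E} (h : Commute (e i) x) :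
    Commute (sg A e i) x :=
  (((Commute.one_left x).smul_left _).add_left (h.smul_left _))

theorem commute_of_sg {A : Sˣ} {e : ℕ → E} {i : ℕ} {x : E} (h : Commute (sg A e i) x) :
    Commute (e i) x := by
  have hA : (A : S) * ((A⁻¹ : Sˣ) : S) = 1 := A.mul_inv
  have h1 : e i = (A : S) • sg A e i - ((A : S) * A) • (1 : E) := by
    unfold sg
    rw [smul_add, smul_smul, smul_smul, hA, one_smul]
    abel
  rw [h1]
  exact (h.smul_left _).sub_left ((Commute.one_left x).smul_left _)

theorem TL.br {A : Sˣ} {k : ℕ} {e : ℕ → E} (h : TL (dl A) k e) : Br k (sg A e) where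
  brd j hj := by
    unfold sg
    rw [braid_expand A (h.sq j (by omega)) (h.up j hj),
      braid_expand A (h.sq (j + 1) (by omega)) (h.dn j hj)]
    abel
  comm i j hij hj := sg_commute ((sg_commute (A := A) (Commute.symm (h.comm i j hij hj))).symm)

/-- The generators without the first two. -/
theorem TL.shift {d : S} {k : ℕ} {e : ℕ → E} (h : TL d (k + 2) e) :
    TL d k (fun j => e (j + 2)) where
  sq j hj := h.sq (j + 2) (by omega)
  up j hj := h.up (j + 2) (by omega)
  dn j hj := h.dn (j + 2) (by omega)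
  comm i j hij hj := h.comm (i + 2) (j + 2) (by omega) (by omega)

theorem JJ_mul_e {A : Sˣ} {k : ℕ} {e : ℕ → E} (h : TL (dl A) k e) : ∀ j, j + 2 < k →
    JJ (sg A e) (j + 2) * e 0 = e 0 * JJ (sg A fun i => e (i + 2)) j
  | 0, hj => by
    have h0 := h.sq 0 (by omega)
    have h1 := h.sq 1 (by omega)
    have h2 := h.up 0 (by omega)
    have h3 := h.dn 0 (by omega)
    have e1 : sg A e 0 * (sg A e 1 * e 0) = e 1 * e 0 := sg_sg_mul A h0 h2
    have e2 : sg A e 1 * (sg A e 0 * e 1) = e 0 * e 1 := sg_sg_mul A h1 h3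
    change sg A e 1 * (sg A e 0 * 1 * sg A e 0) * sg A e 1 * e 0 = e 0 * 1
    calc sg A e 1 * (sg A e 0 * 1 * sg A e 0) * sg A e 1 * e 0
        = sg A e 1 * (sg A e 0 * (sg A e 0 * (sg A e 1 * e 0))) := by
          simp only [mul_one, mul_assoc]
      _ = (sg A e 1 * (sg A e 0 * e 1)) * e 0 := by rw [e1]; simp only [mul_assoc]
      _ = e 0 * 1 := by rw [e2, h2, mul_one]
  | j + 1, hj => by
    have ih := JJ_mul_e h j (by omega)
    have h1 : Commute (sg A e (j + 2)) (e 0) :=
      sg_commute (Commute.symm (h.comm 0 (j + 2) (by omega) (by omega)))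
    change sg A e (j + 2) * JJ (sg A e) (j + 2) * sg A e (j + 2) * e 0 =
      e 0 * (sg A e (j + 2) * JJ (sg A fun i => e (i + 2)) j * sg A e (j + 2))
    calc sg A e (j + 2) * JJ (sg A e) (j + 2) * sg A e (j + 2) * e 0
        = sg A e (j + 2) * (JJ (sg A e) (j + 2) * (sg A e (j + 2) * e 0)) := by
          simp only [mul_assoc]
      _ = sg A e (j + 2) * ((JJ (sg A e) (j + 2) * e 0) * sg A e (j + 2)) := by
          rw [h1.eq, mul_assoc]
      _ = (sg A e (j + 2) * e 0) * (JJ (sg A fun i => e (i + 2)) j * sg A e (j + 2)) := by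
          rw [ih]; simp only [mul_assoc]
      _ = _ := by rw [h1.eq]; simp only [mul_assoc]

theorem FF_mul_e {A : Sˣ} {k : ℕ} {e : ℕ → E} (h : TL (dl A) k e) : ∀ j, j + 2 ≤ k →
    FF (sg A e) (j + 2) * e 0 =
      (((A⁻¹ : Sˣ) : S) ^ 6) • (e 0 * FF (sg A fun i => e (i + 2)) j)
  | 0, hj => by
    have h0 := h.sq 0 (by omega)
    have e1 : sg A e 0 * e 0 = (-((A⁻¹ : Sˣ) : S) ^ 3) • e 0 := sg_mul_self A h0
    change 1 * 1 * (sg A e 0 * 1 * sg A e 0) * e 0 = _ • (e 0 * 1)
    calc 1 * 1 * (sg A e 0 * 1 * sg A e 0) * e 0 = sg A e 0 * (sg A e 0 * e 0) := by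
          simp only [mul_one, one_mul, mul_assoc]
      _ = _ := by
          rw [e1, mul_smul_comm, e1, smul_smul, mul_one]
          congr 1
          ring
  | j + 1, hj => by
    have ih := FF_mul_e h j (by omega)
    change FF (sg A e) (j + 2) * JJ (sg A e) (j + 2) * e 0 =
      _ • (e 0 * (FF (sg A fun i => e (i + 2)) j * JJ (sg A fun i => e (i + 2)) j))
    rw [mul_assoc, JJ_mul_e h j (by omega), ← mul_assoc, ih, smul_mul_assoc, mul_assoc]

/-- The eigenvalues of the full twist. -/
noncomputable def lam (A : Sˣ) (k j : ℕ) : S :=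
  ((A ^ (((k : ℤ) - 2 * j) ^ 2 + 2 * ((k : ℤ) - 2 * j) - 3 * k) : Sˣ) : S)

theorem lam_succ (A : Sˣ) (k j : ℕ) :
    lam A (k + 2) (j + 1) = ((A⁻¹ : Sˣ) : S) ^ 6 * lam A k j := by
  unfold lam
  rw [← Units.val_pow_eq_pow_val, ← Units.val_mul]
  congr 1
  rw [inv_pow, ← zpow_natCast, ← zpow_neg, ← zpow_add]
  congr 1
  push_cast
  ring

theorem lam_zero (A : Sˣ) (k : ℕ) : lam A k 0 = (A : S) ^ (k * (k - 1)) := by
  unfold lam
  rw [← Units.val_pow_eq_pow_val, ← zpow_natCast]
  congr 2
  rcases k with _ | k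
  · norm_num
  · push_cast
    ring

/-- The polynomial which annihilates the full twist. -/
noncomputable def ann (A : Sˣ) (k : ℕ) : S[X] :=
  ∏ j ∈ Finset.range (k / 2 + 1), (X - C (lam A k j))

theorem aeval_mul_comm {a b x : E} (h : a * x = x * b) (q : S[X]) :
    aeval a q * x = x * aeval b q := by
  induction q using Polynomial.induction_on' with
  | add p q hp hq => rw [map_add, map_add, add_mul, mul_add, hp, hq]
  | monomial n c =>
    have h1 : ∀ n : ℕ, a ^ n * x = x * b ^ n := by
      intro n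
      induction n with
      | zero => rw [pow_zero, pow_zero, one_mul, mul_one]
      | succ n ih => rw [pow_succ', pow_succ, mul_assoc, ih, ← mul_assoc, h, mul_assoc, ← pow_succ',
          ← pow_succ]
    rw [aeval_monomial, aeval_monomial, mul_assoc, h1, ← mul_assoc, Algebra.commutes, mul_assoc]

theorem aeval_commute {a x : E} (h : Commute x a) (q : S[X]) : Commute x (aeval a q) :=
  (aeval_mul_comm h.symm.eq q).symm

/-- The full twist is annihilated by `ann`. -/
theorem aeval_ann (A : Sˣ) : ∀ (k : ℕ) (e : ℕ → E), TL (dl A) k e →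
    aeval (FF (sg A e) k) (ann A k) = 0
  | 0, e, _ => by
    unfold ann
    rw [Finset.prod_range_one, lam_zero]
    change aeval (1 : E) _ = 0
    simp
  | 1, e, _ => by
    unfold ann
    rw [show 1 / 2 + 1 = 1 from rfl, Finset.prod_range_one, lam_zero]
    change aeval (1 * 1 : E) _ = 0
    simp
  | k + 2, e, h => by
    have ih := aeval_ann A k (fun j => e (j + 2)) h.shift
    have hF := FF_mul_e h k le_rfl
    have hbr := h.br
    obtain ⟨F, hFdef⟩ : ∃ F : E, F = FF (sg A e) (k + 2) := ⟨_, rfl⟩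
    rw [← hFdef] at hF ⊢
    obtain ⟨q, hq⟩ : ∃ q : S[X], q = ∏ j ∈ Finset.range (k / 2 + 1),
      (X - C (((A⁻¹ : Sˣ) : S) ^ 6 * lam A k j)) := ⟨_, rfl⟩
    have hann : ann A (k + 2) = q * (X - C (lam A (k + 2) 0)) := by
      unfold ann
      rw [show (k + 2) / 2 + 1 = (k / 2 + 1) + 1 by omega, Finset.prod_range_succ', hq]
      congr 1
      exact Finset.prod_congr rfl fun j _ => by rw [lam_succ]
    obtain ⟨G, hG⟩ : ∃ G : E, G = aeval F q := ⟨_, rfl⟩
    -- `G` commutes with the generators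
    have hGs : ∀ i, i + 1 < k + 2 → Commute (e i) G := by
      intro i hi
      rw [hG]
      apply aeval_commute
      apply commute_of_sg (A := A)
      rw [hFdef]
      exact FF_comm hbr (k + 2) le_rfl i hi
    -- `G e_0 = 0`
    have hG0 : G * e 0 = 0 := by
      obtain ⟨F', hF'⟩ : ∃ F' : E, F' = FF (sg A fun i => e (i + 2)) k := ⟨_, rfl⟩
      rw [← hF'] at hF ih
      have h1 : F * e 0 = e 0 * ((((A⁻¹ : Sˣ) : S) ^ 6) • F') := by
        rw [hF, mul_smul_comm]
      rw [hG, aeval_mul_comm h1 q]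
      obtain ⟨μ, hμ⟩ : ∃ μ : S, μ = ((A⁻¹ : Sˣ) : S) ^ 6 := ⟨_, rfl⟩
      rw [← hμ] at hq ⊢
      have h2 : μ • F' = aeval F' (C μ * X) := by
        rw [map_mul, aeval_C, aeval_X, Algebra.smul_def]
      have h4 : (C (μ ^ (k / 2 + 1)) : S[X]) = ∏ _j ∈ Finset.range (k / 2 + 1), C μ := by
        rw [Finset.prod_const, Finset.card_range, C_pow]
      have h3 : q.comp (C μ * X) = C (μ ^ (k / 2 + 1)) * ann A k := by
        rw [hq, Polynomial.prod_comp, h4]
        unfold ann
        rw [← Finset.prod_mul_distrib]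
        refine Finset.prod_congr rfl fun j _ => ?_
        rw [sub_comp, X_comp, C_comp, map_mul]
        ring
      rw [h2, ← aeval_comp, h3, map_mul, ih, mul_zero, mul_zero]
    have hGe : ∀ i, i + 1 < k + 2 → G * e i = 0 := by
      intro i
      induction i with
      | zero => intro _; exact hG0
      | succ i ih2 =>
        intro hi
        have h1 := h.dn i (by omega)
        rw [← h1, ← mul_assoc, ← mul_assoc, ← (hGs (i + 1) hi).eq, mul_assoc (e (i + 1)),
          ih2 (by omega), mul_zero, zero_mul]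
    have hGsg : ∀ i, i + 1 < k + 2 → G * sg A e i = (A : S) • G := by
      intro i hi
      unfold sg
      rw [mul_add, mul_smul_comm, mul_smul_comm, hGe i hi, smul_zero, add_zero, mul_one]
    have hGJ : ∀ j, j < k + 2 → G * JJ (sg A e) j = ((A : S) ^ (2 * j)) • G := by
      intro j
      induction j with
      | zero =>
        intro _
        change G * 1 = _
        rw [mul_one, Nat.mul_zero, pow_zero, one_smul]
      | succ j ih2 =>
        intro hj
        change G * (sg A e j * JJ (sg A e) j * sg A e j) = _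
        rw [← mul_assoc, ← mul_assoc, hGsg j (by omega), smul_mul_assoc, ih2 (by omega),
          smul_mul_assoc, smul_mul_assoc, hGsg j (by omega), smul_smul, smul_smul]
        congr 1
        ring
    have hGF : ∀ j, j ≤ k + 2 → G * FF (sg A e) j = ((A : S) ^ (j * (j - 1))) • G := by
      intro j
      induction j with
      | zero =>
        intro _
        change G * 1 = _
        rw [mul_one, Nat.zero_mul, pow_zero, one_smul]
      | succ j ih2 =>
        intro hj
        change G * (FF (sg A e) j * JJ (sg A e) j) = _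
        rw [← mul_assoc, ih2 (by omega), smul_mul_assoc, hGJ j (by omega), smul_smul, ← pow_add]
        congr 2
        rcases j with _ | j
        · rfl
        · simp only [Nat.add_sub_cancel]
          ring
    rw [hann, map_mul, ← hG, map_sub, aeval_X, aeval_C, mul_sub, hFdef, hGF (k + 2) le_rfl,
      ← Algebra.commutes, ← Algebra.smul_def, lam_zero, sub_self]

end algebra

end MP_fc1011_gt.MV
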