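import Pool.Agent.Lib.MP_fc1011_gt.MV.State
import Pool.Agent.Lib.MP_fc1011_gt.MV.TLalg
import Pool.Agent.Lib.MP_fc1011_gt.L1

/-!
# MP_fc1011_gt, multi-strand twist regions: the operators on the functions of pairings
-/

set_option autoImplicit false

namespace MP_fc1011_gt.MV

open LaurentPolynomial Finset

section capF

variable {α : Type*} [DecidableEq α]

theorem capF_symm (f : α → α) {I J : α} (h : I ≠ J) : capF f I J = capF f J I := by
  funext x
  unfold capF
  by_cases h1 : x = I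
  · rw [if_pos h1, if_neg (by rw [h1]; exact h), if_pos h1]
  by_cases h2 : x = J
  · rw [if_neg h1, if_pos h2, if_pos h2]
  by_cases h3 : f x = I
  · rw [if_neg h1, if_neg h2, if_pos h3, if_neg h2, if_neg h1, if_neg (by rw [h3]; exact h),
      if_pos h3]
  by_cases h4 : f x = J
  · rw [if_neg h1, if_neg h2, if_neg h3, if_pos h4, if_neg h2, if_neg h1, if_pos h4]
  rw [if_neg h1, if_neg h2, if_neg h3, if_neg h4, if_neg h2, if_neg h1, if_neg h4, if_neg h3]

theorem capF_up {g : α → α} (hg : ∀ x, g (g x) = x) (hne : ∀ x, g x ≠ x) {I J K : α}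
    (hIJ : I ≠ J) (hIK : I ≠ K) (hJK : J ≠ K) (h : g I = J) :
    capF (capF g J K) I J = g := by
  have hgJ : g J = I := by rw [← h, hg]
  have hgJK : g J ≠ K := by rw [hgJ]; exact hIK
  have k1 : capF g J K J = K := capF_I g J K
  have k2 : capF g J K K = J := capF_J g hJK
  have k3 : capF g J K I = g K := by
    have := capF_fI hg hne hgJK
    rwa [hgJ] at this
  have k4 : capF g J K (g K) = I := by
    have := capF_fJ hg hne hJK hgJK
    rwa [hgJ] at this
  have n1 : g K ≠ I := fun h1 => hJK (by rw [← h, ← h1, hg])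
  have n2 : g K ≠ J := fun h1 => hIK (by rw [← hgJ, ← h1, hg])
  funext x
  by_cases c1 : x = I
  · rw [c1, capF_I, h]
  by_cases c2 : x = J
  · rw [c2, capF_J _ hIJ, hgJ]
  by_cases c3 : x = K
  · rw [c3]
    unfold capF at k2 k3 ⊢
    rw [if_neg hIK.symm, if_neg hJK.symm, k2, if_neg hIJ.symm, if_pos rfl, k3]
  by_cases c4 : x = g K
  · rw [c4, hg]
    conv_lhs => unfold capF
    rw [if_neg n1, if_neg n2]
    change (if capF g J K (g K) = I then capF g J K J else _) = K
    rw [k4, if_pos rfl, k1]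
  have k5 : capF g J K x = g x := by
    refine capF_other c2 c3 ?_ ?_
    · intro h1
      exact c1 (by rw [← hgJ, ← h1, hg])
    · intro h1
      exact c4 (by rw [← h1, hg])
  rw [capF_other c1 c2, k5]
  · rw [k5]
    intro h1
    exact c2 (by rw [← h, ← h1, hg])
  · rw [k5]
    intro h1
    exact c1 (by rw [← hgJ, ← h1, hg])

/-- The colouring `y` is constant on the arcs. -/
def Kon (f : α → α) (y : α → Bool) : Prop := ∀ z, y (f z) = y z

theorem kon_ext {f g : α → α} (hf : ∀ x, f (f x) = x) (hg' : ∀ x, g x ≠ x)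
    (h : ∀ y, Kon f y → Kon g y) : f = g := by
  funext z
  have h1 : Kon f (fun w => decide (w = z ∨ w = f z)) := by
    intro w
    rw [decide_eq_decide]
    constructor
    · rintro (h2 | h2)
      · exact Or.inr (by rw [← h2, hf])
      · exact Or.inl (by rw [← hf w, h2, hf])
    · rintro (h2 | h2)
      · exact Or.inr (by rw [h2])
      · exact Or.inl (by rw [h2, hf])
  have h2 := h _ h1 z
  have h3 : (decide (z = z ∨ z = f z)) = true := by simp
  have h5 : decide (g z = z ∨ g z = f z) = true := h2.trans h3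
  rcases of_decide_eq_true h5 with h4 | h4
  · exact absurd h4 (hg' z)
  · exact h4.symm

theorem kon_cap {f : α → α} (hf : ∀ x, f (f x) = x) (hne : ∀ x, f x ≠ x) {I J : α}
    (y : α → Bool) : Kon (capF f I J) y ↔ y I = y J ∧ ∃ c, Kon f (colF I J y c) := by
  by_cases hy : y I = y J
  · by_cases h : f I = J
    · have h1 := col_case1 f hf I J y hy h
      constructor
      · intro h2
        exact ⟨hy, true, (h1 true).mpr h2⟩
      · rintro ⟨-, c, hc⟩
        exact (h1 c).mp hc
    · have h1 := col_case2 f hf hne I J y hy h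
      constructor
      · intro h2
        exact ⟨hy, _, (h1 _).mpr ⟨h2, rfl⟩⟩
      · rintro ⟨-, c, hc⟩
        exact ((h1 c).mp hc).1
  · constructor
    · intro h2
      have := h2 I
      rw [capF_I] at this
      exact absurd this.symm hy
    · intro h2
      exact absurd h2.1 hy

theorem colF_comm {I J K L : α} (h1 : I ≠ K) (h2 : I ≠ L) (h3 : J ≠ K) (h4 : J ≠ L)
    (y : α → Bool) (c c' : Bool) :
    colF I J (colF K L y c) c' = colF K L (colF I J y c') c := by
  funext z
  unfold colF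
  by_cases a1 : z = I ∨ z = J
  · have a2 : ¬ (z = K ∨ z = L) := by
      rcases a1 with rfl | rfl
      · rintro (h | h)
        · exact h1 h
        · exact h2 h
      · rintro (h | h)
        · exact h3 h
        · exact h4 h
    rw [if_pos a1, if_neg a2, if_pos a1]
  · rw [if_neg a1]
    by_cases a2 : z = K ∨ z = L
    · rw [if_pos a2, if_pos a2]
    · rw [if_neg a2, if_neg a2, if_neg a1]

theorem capF_comm {f : α → α} (hf : ∀ x, f (f x) = x) (hne : ∀ x, f x ≠ x) {I J K L : α}
    (hIJ : I ≠ J) (hKL : K ≠ L) (h1 : I ≠ K) (h2 : I ≠ L) (h3 : J ≠ K) (h4 : J ≠ L) :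
    capF (capF f I J) K L = capF (capF f K L) I J := by
  have hf1 := capF_invol hf hne hIJ
  have hn1 := capF_ne hf hne hIJ
  have hf2 := capF_invol hf hne hKL
  have hn2 := capF_ne hf hne hKL
  refine kon_ext (capF_invol hf1 hn1 hKL) (capF_ne hf2 hn2 hIJ) ?_
  intro y hy
  rw [kon_cap hf1 hn1] at hy
  obtain ⟨a1, c, hc⟩ := hy
  rw [kon_cap hf hne] at hc
  obtain ⟨a2, c', hc'⟩ := hc
  rw [colF_o _ _ h1 h2, colF_o _ _ h3 h4] at a2
  rw [kon_cap hf2 hn2]
  refine ⟨a2, c', ?_⟩
  rw [kon_cap hf hne]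
  refine ⟨?_, c, ?_⟩
  · rw [colF_o _ _ h1.symm h3.symm, colF_o _ _ h2.symm h4.symm]
    exact a1
  · rw [← colF_comm h1 h2 h3 h4]
    exact hc'

open Classical in
theorem capF_comm_lp {f : α → α} (hf : ∀ x, f (f x) = x) (hne : ∀ x, f x ≠ x) {I J K L : α}
    (hIJ : I ≠ J) (hKL : K ≠ L) (h1 : I ≠ K) (h2 : I ≠ L) (h3 : J ≠ K) (h4 : J ≠ L) :
    (if f I = J then 1 else 0) + (if capF f I J K = L then 1 else 0) =
      (if f K = L then 1 else 0) + (if capF f K L I = J then 1 else 0) := by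
  have hf1 := capF_invol hf hne hIJ
  have hn1 := capF_ne hf hne hIJ
  have hf2 := capF_invol hf hne hKL
  have hn2 := capF_ne hf hne hKL
  have key : ∀ (f : α → α) (hf : ∀ x, f (f x) = x) (hne : ∀ x, f x ≠ x) (I J K L : α),
      I ≠ J → K ≠ L → I ≠ K → I ≠ L → J ≠ K → J ≠ L →
      (∑ c : Bool, ∑ c' : Bool,
        if (Kon f (colF I J (colF K L (fun _ => true) c) c')) then 1 else 0 : ℕ) =
      2 ^ ((if f I = J then 1 else 0) + (if capF f I J K = L then 1 else 0)) := by
    intro f hf hne I J K L hIJ hKL h1 h2 h3 h4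
    have hf1 := capF_invol hf hne hIJ
    have hn1 := capF_ne hf hne hIJ
    have e1 : ∀ c : Bool, (∑ c' : Bool,
        if (Kon f (colF I J (colF K L (fun _ => true) c) c')) then 1 else 0 : ℕ) =
        2 ^ (if f I = J then 1 else 0) *
          (if (∀ z, colF K L (fun _ => true) c (capF f I J z) = colF K L (fun _ => true) c z)
            then 1 else 0) := by
      intro c
      have h5 := col_count f hf hne I J (colF K L (fun _ => true) c) (by
        rw [colF_o _ _ h1 h2, colF_o _ _ h3 h4])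
      unfold Kon
      rw [h5]
      by_cases h6 : ∀ z, colF K L (fun _ => true) c (capF f I J z) = colF K L (fun _ => true) c z
      · rw [if_pos h6, if_pos h6, mul_one]
      · rw [if_neg h6, if_neg h6, mul_zero]
    rw [Finset.sum_congr rfl fun c _ => e1 c, ← Finset.mul_sum,
      col_count (capF f I J) hf1 hn1 K L (fun _ => true) rfl, if_pos (fun _ => rfl), pow_add]
  have k1 := key f hf hne I J K L hIJ hKL h1 h2 h3 h4
  have k2 := key f hf hne K L I J hKL hIJ h1.symm h3.symm h2.symm h4.symm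
  apply Nat.pow_right_injective (le_refl 2)
  change 2 ^ _ = 2 ^ _
  rw [← k1, ← k2, Finset.sum_comm]
  refine Finset.sum_congr rfl fun c _ => Finset.sum_congr rfl fun c' _ => ?_
  rw [colF_comm h1 h2 h3 h4]

end capF

variable {m : ℕ}

theorem Closure.ext' {μ ν : Closure m} (h : μ.f = ν.f) : μ = ν := by
  cases μ
  cases ν
  cases h
  rfl

theorem lp_cap_self (μ : Closure m) {i : ℕ} (h : i + 1 < m) : lp (μ.cap i) i = 1 := by
  rw [lp_eq _ h, μ.cap_f h, capF_I, if_pos rfl]

theorem cap_cap_self (μ : Closure m) {i : ℕ} (h : i + 1 < m) : (μ.cap i).cap i = μ.cap i := by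
  apply Closure.ext'
  rw [Closure.cap_f _ h]
  apply capF_eq_self (μ.cap i).invol
  rw [μ.cap_f h, capF_I]

theorem tne {a b : ℕ} (ha : a < m) (hb : b < m) (h : a ≠ b) :
    ((true, ⟨a, ha⟩) : Bool × Fin m) ≠ (true, ⟨b, hb⟩) := by
  intro h1
  exact h (congrArg (fun q : Bool × Fin m => (q.2 : ℕ)) h1)

theorem cap_up (μ : Closure m) {i : ℕ} (h : i + 2 < m) :
    lp (μ.cap i) (i + 1) = 0 ∧ lp ((μ.cap i).cap (i + 1)) i = 0 ∧
      ((μ.cap i).cap (i + 1)).cap i = μ.cap i := by
  have hI : (μ.cap i).f (true, ⟨i, by omega⟩) = (true, ⟨i + 1, by omega⟩) := by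
    rw [μ.cap_f (by omega), capF_I]
  have hJ : (μ.cap i).f (true, ⟨i + 1, by omega⟩) = (true, ⟨i, by omega⟩) := by
    rw [← hI, (μ.cap i).invol]
  have hJ2 : ((μ.cap i).cap (i + 1)).f (true, ⟨i + 1, by omega⟩) = (true, ⟨i + 2, h⟩) := by
    rw [(μ.cap i).cap_f (by omega), capF_I]
  refine ⟨?_, ?_, ?_⟩
  · rw [lp_eq _ (by omega), if_neg]
    rw [hJ]
    exact tne _ _ (by omega)
  · rw [lp_eq _ (by omega), if_neg]
    intro h1
    have h2 : (true, ⟨i + 2, h⟩) = ((true, ⟨i, by omega⟩) : Bool × Fin m) := by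
      rw [← hJ2, ← h1, Closure.invol]
    exact tne _ _ (by omega) h2
  · apply Closure.ext'
    rw [Closure.cap_f _ (by omega), (μ.cap i).cap_f (by omega)]
    exact capF_up (μ.cap i).invol (μ.cap i).ne (tne _ _ (by omega)) (tne _ _ (by omega))
      (tne _ _ (by omega)) hI

theorem cap_dn (μ : Closure m) {i : ℕ} (h : i + 2 < m) :
    lp (μ.cap (i + 1)) i = 0 ∧ lp ((μ.cap (i + 1)).cap i) (i + 1) = 0 ∧
      ((μ.cap (i + 1)).cap i).cap (i + 1) = μ.cap (i + 1) := by
  have hJ : (μ.cap (i + 1)).f (true, ⟨i + 1, by omega⟩) = (true, ⟨i + 2, h⟩) := by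
    rw [μ.cap_f (by omega), capF_I]
  have hK : (μ.cap (i + 1)).f (true, ⟨i + 2, h⟩) = (true, ⟨i + 1, by omega⟩) := by
    rw [← hJ, (μ.cap (i + 1)).invol]
  have hI2 : ((μ.cap (i + 1)).cap i).f (true, ⟨i, by omega⟩) = (true, ⟨i + 1, by omega⟩) := by
    rw [(μ.cap (i + 1)).cap_f (by omega), capF_I]
  refine ⟨?_, ?_, ?_⟩
  · rw [lp_eq _ (by omega), if_neg]
    intro h1
    have h2 : (true, ⟨i + 2, h⟩) = ((true, ⟨i, by omega⟩) : Bool × Fin m) := by
      rw [← hJ, ← h1, Closure.invol]
    exact tne _ _ (by omega) h2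
  · rw [lp_eq _ (by omega), if_neg]
    intro h1
    have h2 : ((μ.cap (i + 1)).cap i).f (true, ⟨i + 1, by omega⟩) = (true, ⟨i, by omega⟩) := by
      rw [← hI2, Closure.invol]
    rw [h2] at h1
    exact tne _ _ (by omega) h1
  · apply Closure.ext'
    rw [Closure.cap_f _ (by omega), (μ.cap (i + 1)).cap_f (by omega)]
    rw [capF_symm _ (tne (by omega : i < m) (by omega : i + 1 < m) (by omega)),
      capF_symm _ (tne (by omega : i + 1 < m) (by omega : i + 1 + 1 < m) (by omega))]
    exact capF_up (μ.cap (i + 1)).invol (μ.cap (i + 1)).ne (tne _ _ (by omega))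
      (tne _ _ (by omega)) (tne _ _ (by omega)) hK

theorem cap_comm (μ : Closure m) {i j : ℕ} (hij : i + 2 ≤ j) (hj : j + 1 < m) :
    lp μ i + lp (μ.cap i) j = lp μ j + lp (μ.cap j) i ∧ (μ.cap i).cap j = (μ.cap j).cap i := by
  constructor
  · rw [lp_eq μ (show i + 1 < m by omega), lp_eq μ hj, lp_eq _ hj,
      lp_eq _ (show i + 1 < m by omega), μ.cap_f (show i + 1 < m by omega), μ.cap_f hj]
    exact capF_comm_lp μ.invol μ.ne (tne _ _ (by omega)) (tne _ _ (by omega))
      (tne _ _ (by omega)) (tne _ _ (by omega)) (tne _ _ (by omega)) (tne _ _ (by omega))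
  · apply Closure.ext'
    rw [(μ.cap i).cap_f hj, (μ.cap j).cap_f (show i + 1 < m by omega),
      μ.cap_f (show i + 1 < m by omega), μ.cap_f hj]
    exact capF_comm μ.invol μ.ne (tne _ _ (by omega)) (tne _ _ (by omega))
      (tne _ _ (by omega)) (tne _ _ (by omega)) (tne _ _ (by omega)) (tne _ _ (by omega))

/-- The operator of a cap and a cup. -/
noncomputable def UU (m i : ℕ) :
    Module.End ℤ[T;T⁻¹] (Closure m → ℤ[T;T⁻¹]) where
  toFun φ μ := delta ^ lp μ i * φ (μ.cap i)
  map_add' φ ψ := by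
    funext μ
    simp [mul_add]
  map_smul' a φ := by
    funext μ
    simp only [Pi.smul_apply, smul_eq_mul, RingHom.id_apply]
    ring

theorem UU_apply (m i : ℕ) (φ : Closure m → ℤ[T;T⁻¹]) (μ : Closure m) :
    UU m i φ μ = delta ^ lp μ i * φ (μ.cap i) := rfl

theorem TL_UU {i k : ℕ} (h : i + k ≤ m) : TL delta k (fun j => UU m (i + j)) where
  sq j hj := by
    apply LinearMap.ext
    intro φ
    funext μ
    change UU m (i + j) (UU m (i + j) φ) μ = delta * UU m (i + j) φ μ
    rw [UU_apply, UU_apply, UU_apply, lp_cap_self μ (by omega), cap_cap_self μ (by omega)]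
    ring
  up j hj := by
    apply LinearMap.ext
    intro φ
    funext μ
    obtain ⟨h1, h2, h3⟩ := cap_up μ (i := i + j) (by omega)
    change UU m (i + j) (UU m (i + (j + 1)) (UU m (i + j) φ)) μ = UU m (i + j) φ μ
    rw [← add_assoc, UU_apply, UU_apply, UU_apply, UU_apply, h1, h2, h3, pow_zero, one_mul,
      one_mul]
  dn j hj := by
    apply LinearMap.ext
    intro φ
    funext μ
    obtain ⟨h1, h2, h3⟩ := cap_dn μ (i := i + j) (by omega)
    change UU m (i + (j + 1)) (UU m (i + j) (UU m (i + (j + 1)) φ)) μ = UU m (i + (j + 1)) φ μ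
    rw [← add_assoc, UU_apply, UU_apply, UU_apply, UU_apply, h1, h2, h3, pow_zero, one_mul,
      one_mul]
  comm a b hab hb := by
    apply LinearMap.ext
    intro φ
    funext μ
    obtain ⟨h1, h2⟩ := cap_comm μ (i := i + a) (j := i + b) (by omega) (by omega)
    change UU m (i + a) (UU m (i + b) φ) μ = UU m (i + b) (UU m (i + a) φ) μ
    rw [UU_apply, UU_apply, UU_apply, UU_apply, ← mul_assoc, ← pow_add, h1, h2, pow_add,
      mul_assoc]

end MP_fc1011_gt.MV
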