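import Pool.Agent.Lib.MP_fc1011_gt.MV.Defs

/-!
# MP_fc1011_gt, multi-strand twist regions: the state sum
-/

set_option autoImplicit false

namespace MP_fc1011_gt.MV

open LaurentPolynomial Finset

section cap

variable {α : Type*} [DecidableEq α]

/-- The pairing after a cap and a cup at the ends `i` and `j`. -/
def capF (f : α → α) (i j : α) (x : α) : α :=
  if x = i then j else if x = j then i else if f x = i then f j else if f x = j then f i else f x

theorem capF_eq_self {f : α → α} (hf : ∀ x, f (f x) = x) {I J : α} (h : f I = J) :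
    capF f I J = f := by
  funext x
  unfold capF
  split_ifs with c1 c2 c3 c4
  · rw [c1, h]
  · rw [c2, ← h, hf]
  · exact absurd (by rw [← h, ← c3, hf]) c2
  · exact absurd (by rw [← hf x, c4, ← h, hf]) c1
  · rfl

theorem capF_I (f : α → α) (I J : α) : capF f I J I = J := if_pos rfl

theorem capF_J (f : α → α) {I J : α} (h : I ≠ J) : capF f I J J = I := by
  unfold capF
  rw [if_neg h.symm, if_pos rfl]

theorem capF_fI {f : α → α} (hf : ∀ x, f (f x) = x) (hne : ∀ x, f x ≠ x) {I J : α}
    (h : f I ≠ J) : capF f I J (f I) = f J := by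
  unfold capF
  rw [if_neg (hne I), if_neg h, if_pos (hf I)]

theorem capF_fJ {f : α → α} (hf : ∀ x, f (f x) = x) (hne : ∀ x, f x ≠ x) {I J : α}
    (hIJ : I ≠ J) (h : f I ≠ J) : capF f I J (f J) = f I := by
  have h1 : f J ≠ I := fun h1 => h (by rw [← h1, hf])
  unfold capF
  rw [if_neg h1, if_neg (hne J), hf, if_neg hIJ.symm, if_pos rfl]

theorem capF_other {f : α → α} {I J x : α} (h1 : x ≠ I) (h2 : x ≠ J) (h3 : f x ≠ I)
    (h4 : f x ≠ J) : capF f I J x = f x := by
  unfold capF
  rw [if_neg h1, if_neg h2, if_neg h3, if_neg h4]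

theorem capF_invol {f : α → α} (hf : ∀ x, f (f x) = x) (hne : ∀ x, f x ≠ x) {I J : α}
    (hIJ : I ≠ J) : ∀ x, capF f I J (capF f I J x) = x := by
  by_cases h : f I = J
  · rw [capF_eq_self hf h]
    exact hf
  intro x
  by_cases h1 : x = I
  · rw [h1, capF_I, capF_J f hIJ]
  by_cases h2 : x = J
  · rw [h2, capF_J f hIJ, capF_I]
  by_cases h3 : f x = I
  · have hx : x = f I := by rw [← h3, hf]
    rw [hx, capF_fI hf hne h, capF_fJ hf hne hIJ h]
  by_cases h4 : f x = J
  · have hx : x = f J := by rw [← h4, hf]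
    rw [hx, capF_fJ hf hne hIJ h, capF_fI hf hne h]
  rw [capF_other h1 h2 h3 h4, capF_other h3 h4 (by rw [hf]; exact h1) (by rw [hf]; exact h2), hf]

theorem capF_ne {f : α → α} (hf : ∀ x, f (f x) = x) (hne : ∀ x, f x ≠ x) {I J : α}
    (hIJ : I ≠ J) : ∀ x, capF f I J x ≠ x := by
  by_cases h : f I = J
  · rw [capF_eq_self hf h]
    exact hne
  have hab : f I ≠ f J := fun h5 => hIJ (by rw [← hf I, h5, hf])
  intro x
  by_cases h1 : x = I
  · rw [h1, capF_I]
    exact hIJ.symm
  by_cases h2 : x = J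
  · rw [h2, capF_J f hIJ]
    exact hIJ
  by_cases h3 : f x = I
  · have hx : x = f I := by rw [← h3, hf]
    rw [hx, capF_fI hf hne h]
    exact hab.symm
  by_cases h4 : f x = J
  · have hx : x = f J := by rw [← h4, hf]
    rw [hx, capF_fJ hf hne hIJ h]
    exact hab
  rw [capF_other h1 h2 h3 h4]
  exact hne x

/-- the colouring with value `c` on `I, J` and `y` elsewhere -/
def colF (I J : α) (y : α → Bool) (c : Bool) (z : α) : Bool :=
  if z = I ∨ z = J then c else y z

theorem colF_I (I J : α) (y : α → Bool) (c : Bool) : colF I J y c I = c := by simp [colF]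

theorem colF_J (I J : α) (y : α → Bool) (c : Bool) : colF I J y c J = c := by simp [colF]

theorem colF_o {I J : α} (y : α → Bool) (c : Bool) {z : α} (h1 : z ≠ I) (h2 : z ≠ J) :
    colF I J y c z = y z := by simp [colF, h1, h2]

theorem col_case1 (f : α → α) (hf : ∀ x, f (f x) = x) (I J : α)
    (y : α → Bool) (hy : y I = y J) (hIJ : f I = J) (c : Bool) :
    (∀ z, colF I J y c (f z) = colF I J y c z) ↔ ∀ z, y (capF f I J z) = y z := by
  have hJI : f J = I := by rw [← hIJ, hf]
  have k1 : ∀ z, z ≠ J → f z ≠ I := by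
    intro z h1 h2
    exact h1 (by rw [← hf z, h2, hIJ])
  have k2 : ∀ z, z ≠ I → f z ≠ J := by
    intro z h1 h2
    exact h1 (by rw [← hf z, h2, hJI])
  rw [capF_eq_self hf hIJ]
  constructor
  · intro h z
    by_cases h1 : z = I
    · rw [h1, hIJ, hy]
    · by_cases h2 : z = J
      · rw [h2, hJI, hy]
      · have := h z
        rwa [colF_o y c (k1 z h2) (k2 z h1), colF_o y c h1 h2] at this
  · intro h z
    by_cases h1 : z = I
    · rw [h1, hIJ, colF_I, colF_J]
    · by_cases h2 : z = J
      · rw [h2, hJI, colF_I, colF_J]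
      · rw [colF_o y c (k1 z h2) (k2 z h1), colF_o y c h1 h2]
        exact h z

theorem col_case2 (f : α → α) (hf : ∀ x, f (f x) = x)
    (hne : ∀ x, f x ≠ x) (I J : α)
    (y : α → Bool) (hy : y I = y J) (hIJ : f I ≠ J) (c : Bool) :
    (∀ z, colF I J y c (f z) = colF I J y c z) ↔
      (∀ z, y (capF f I J z) = y z) ∧ c = y (f I) := by
  have hJI : f J ≠ I := fun h => hIJ (by rw [← h, hf])
  have e1 : ∀ z, f z = I → z = f I := fun z h => by rw [← h, hf]
  have e2 : ∀ z, f z = J → z = f J := fun z h => by rw [← h, hf]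
  constructor
  · intro h
    have a1 : y (f I) = c := by
      have := h I
      rwa [colF_o y c (hne I) hIJ, colF_I] at this
    have a2 : y (f J) = c := by
      have := h J
      rwa [colF_o y c hJI (hne J), colF_J] at this
    refine ⟨fun z => ?_, a1.symm⟩
    unfold capF
    by_cases h1 : z = I
    · rw [if_pos h1, h1, hy]
    · by_cases h2 : z = J
      · rw [if_neg h1, if_pos h2, h2, hy]
      · by_cases h3 : f z = I
        · rw [if_neg h1, if_neg h2, if_pos h3, a2, e1 z h3, a1]
        · by_cases h4 : f z = J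
          · rw [if_neg h1, if_neg h2, if_neg h3, if_pos h4, a1, e2 z h4, a2]
          · rw [if_neg h1, if_neg h2, if_neg h3, if_neg h4]
            have := h z
            rwa [colF_o y c h3 h4, colF_o y c h1 h2] at this
  · rintro ⟨h, hc⟩ z
    have a1 : y (f J) = y (f I) := by
      have := h (f I)
      rwa [capF_fI hf hne hIJ] at this
    by_cases h1 : z = I
    · rw [h1, colF_o y c (hne I) hIJ, colF_I, hc]
    · by_cases h2 : z = J
      · rw [h2, colF_o y c hJI (hne J), colF_J, hc, a1]
      · rw [colF_o y c h1 h2]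
        by_cases h3 : f z = I
        · rw [h3, colF_I, e1 z h3, hc]
        · by_cases h4 : f z = J
          · rw [h4, colF_J, e2 z h4, hc, a1]
          · rw [colF_o y c h3 h4]
            have := h z
            unfold capF at this
            rwa [if_neg h1, if_neg h2, if_neg h3, if_neg h4] at this

open Classical in
theorem col_count (f : α → α) (hf : ∀ x, f (f x) = x) (hne : ∀ x, f x ≠ x) (I J : α)
    (y : α → Bool) (hy : y I = y J) :
    (∑ c : Bool, if (∀ z, colF I J y c (f z) = colF I J y c z) then 1 else 0 : ℕ) =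
      if (∀ z, y (capF f I J z) = y z) then 2 ^ (if f I = J then 1 else 0) else 0 := by
  by_cases hIJ : f I = J
  · rw [if_pos hIJ, Finset.sum_congr rfl fun c _ => if_congr (col_case1 f hf I J y hy hIJ c) rfl rfl]
    by_cases h : ∀ z, y (capF f I J z) = y z
    · simp [h]
    · simp [h]
  · rw [if_neg hIJ, Finset.sum_congr rfl
      fun c _ => if_congr (col_case2 f hf hne I J y hy hIJ c) rfl rfl]
    by_cases h : ∀ z, y (capF f I J z) = y z
    · rw [if_pos h]
      simp [h]
    · simp [h]

end cap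

variable {m : ℕ}

/-- The pairing after a cap and a cup at the upper ends `i` and `i + 1`. -/
def Closure.cap (μ : Closure m) (i : ℕ) : Closure m :=
  if h : i + 1 < m then
    { f := capF μ.f (true, ⟨i, by omega⟩) (true, ⟨i + 1, h⟩)
      invol := capF_invol μ.invol μ.ne (by simp)
      ne := capF_ne μ.invol μ.ne (by simp) }
  else μ

theorem Closure.cap_f (μ : Closure m) {i : ℕ} (h : i + 1 < m) :
    (μ.cap i).f = capF μ.f (true, ⟨i, by omega⟩) (true, ⟨i + 1, h⟩) := by
  unfold Closure.cap
  rw [dif_pos h]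

open Classical in
/-- `1` if the upper ends `i` and `i + 1` are joined by `μ`, and `0` otherwise. -/
noncomputable def lp (μ : Closure m) (i : ℕ) : ℕ :=
  if ∃ hi : i + 1 < m, μ.f (true, ⟨i, by omega⟩) = (true, ⟨i + 1, hi⟩) then 1 else 0

open Classical in
theorem lp_eq (μ : Closure m) {i : ℕ} (h : i + 1 < m) :
    lp μ i = if μ.f (true, ⟨i, by omega⟩) = (true, ⟨i + 1, h⟩) then 1 else 0 := by
  unfold lp
  exact if_congr ⟨fun ⟨_, h1⟩ => h1, fun h1 => ⟨h, h1⟩⟩ rfl rfl

/-- The number of loops of a closure. -/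
noncomputable def cyc (μ : Closure m) : ℕ := loops [] μ (fun j => j.elim0)

/-- the colouring of the ends given by the colourings of the upper and of the lower ends -/
def ends (u v : Fin m → Bool) (x : Bool × Fin m) : Bool := if x.1 = true then u x.2 else v x.2

/-- the condition at a crossing -/
def Step (c : ℕ × Bool) (b : Bool) (u v : Fin m → Bool) : Prop :=
  (∀ x : Fin m, (b = true ∨ ((x : ℕ) ≠ c.1 ∧ (x : ℕ) ≠ c.1 + 1)) → u x = v x) ∧
  ∀ x y : Fin m, b = false → (x : ℕ) = c.1 → (y : ℕ) = c.1 + 1 → u x = u y ∧ v x = v y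

/-- the conditions at the crossings -/
def Tail (cs : List (ℕ × Bool)) (s : Fin cs.length → Bool)
    (y : Fin (cs.length + 1) → Fin m → Bool) : Prop :=
  ∀ j : Fin cs.length, Step (cs.get j) (s j) (y j.castSucc) (y j.succ)

/-- the condition at the ends -/
def Out (μ : Closure m) (u v : Fin m → Bool) : Prop := ∀ x, ends u v (μ.f x) = ends u v x

theorem ends_lev (cs : List (ℕ × Bool)) (y : Fin (cs.length + 1) → Fin m → Bool)
    (x : Bool × Fin m) : ends (y 0) (y (Fin.last _)) x = y (lev _ x.1) x.2 := by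
  unfold ends lev
  split_ifs <;> rfl

/-- colourings of the pieces which are constant on the loops -/
def loopsEquiv (cs : List (ℕ × Bool)) (μ : Closure m) (s : Fin cs.length → Bool) :
    (Quot (Joined cs μ s) → Bool) ≃
      {y : Fin (cs.length + 1) → Fin m → Bool // Out μ (y 0) (y (Fin.last _)) ∧ Tail cs s y} where
  toFun g := ⟨fun j x => g (Quot.mk _ (j, x)), by
    refine ⟨fun x => ?_, fun j => ⟨fun x hx => ?_, fun x y hs hx hy => ⟨?_, ?_⟩⟩⟩
    · rw [ends_lev cs (fun j x => g (Quot.mk _ (j, x))),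
        ends_lev cs (fun j x => g (Quot.mk _ (j, x)))]
      exact congrArg g (Quot.sound (Joined.outer (cs := cs) (μ := μ) (s := s) x)).symm
    · exact congrArg g (Quot.sound (Joined.through (cs := cs) (μ := μ) (s := s) j x hx))
    · exact congrArg g (Quot.sound (Joined.above (cs := cs) (μ := μ) (s := s) j x y hs hx hy))
    · exact congrArg g (Quot.sound (Joined.below (cs := cs) (μ := μ) (s := s) j x y hs hx hy))⟩
  invFun y := Quot.lift (fun p => y.1 p.1 p.2) (by
    rintro _ _ (x | ⟨j, x, hx⟩ | ⟨j, x, y', hs, hx, hy⟩ | ⟨j, x, y', hs, hx, hy⟩)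
    · have h := y.2.1 x
      rw [ends_lev, ends_lev] at h
      exact h.symm
    · exact (y.2.2 j).1 x hx
    · exact ((y.2.2 j).2 x y' hs hx hy).1
    · exact ((y.2.2 j).2 x y' hs hx hy).2)
  left_inv g := by
    funext q
    induction q using Quot.ind
    rfl
  right_inv y := rfl

open Classical in
theorem two_pow_loops (cs : List (ℕ × Bool)) (μ : Closure m) (s : Fin cs.length → Bool) :
    2 ^ loops cs μ s = ∑ y : Fin (cs.length + 1) → Fin m → Bool,
      if (Out μ (y 0) (y (Fin.last _)) ∧ Tail cs s y) then 1 else 0 := by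
  have h1 : Nat.card (Quot (Joined cs μ s) → Bool) = 2 ^ loops cs μ s := by
    rw [Nat.card_fun]
    simp [loops]
  rw [← h1, Nat.card_congr (loopsEquiv cs μ s), Nat.card_eq_fintype_card, Fintype.card_subtype,
    Finset.card_filter]

open Classical in
theorem two_pow_loops_cons (c : ℕ × Bool) (cs : List (ℕ × Bool)) (μ : Closure m) (b : Bool)
    (s : Fin cs.length → Bool) :
    2 ^ loops (c :: cs) μ (Fin.cons b s) = ∑ y : Fin (cs.length + 1) → Fin m → Bool,
      if Tail cs s y then
        (∑ u : Fin m → Bool, if (Out μ u (y (Fin.last _)) ∧ Step c b u (y 0)) then 1 else 0)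
      else 0 := by
  rw [two_pow_loops]
  refine (Fintype.sum_equiv (Fin.consEquiv (fun _ : Fin (cs.length + 1 + 1) => Fin m → Bool))
    (fun z => if (Out μ z.1 (z.2 (Fin.last _)) ∧ Step c b z.1 (z.2 0) ∧ Tail cs s z.2) then 1
      else 0) _ ?_).symm.trans ?_
  · rintro ⟨u, y⟩
    refine if_congr ?_ rfl rfl
    constructor
    · rintro ⟨h1, h2, h3⟩
      refine ⟨h1, fun j => ?_⟩
      induction j using Fin.cases with
      | zero => exact h2
      | succ j => exact h3 j
    · rintro ⟨h1, h2⟩
      exact ⟨h1, h2 (0 : Fin (cs.length + 1)), fun j => h2 j.succ⟩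
  · rw [Fintype.sum_prod_type_right]
    refine Finset.sum_congr rfl fun y _ => ?_
    by_cases hT : Tail cs s y
    · rw [if_pos hT]
      refine Finset.sum_congr rfl fun u _ => if_congr ?_ rfl rfl
      exact ⟨fun h => ⟨h.1, h.2.1⟩, fun h => ⟨h.1, h.2, hT⟩⟩
    · rw [if_neg hT]
      exact Finset.sum_eq_zero fun u _ => if_neg fun h => hT h.2.2

theorem step_true (c : ℕ × Bool) (u v : Fin m → Bool) : Step c true u v ↔ u = v := by
  constructor
  · intro h
    funext x
    exact h.1 x (Or.inl rfl)
  · rintro rfl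
    exact ⟨fun _ _ => rfl, fun _ _ h => absurd h (by simp)⟩

theorem loops_vertical (c : ℕ × Bool) (cs : List (ℕ × Bool)) (μ : Closure m)
    (s : Fin cs.length → Bool) : loops (c :: cs) μ (Fin.cons true s) = loops cs μ s := by
  classical
  apply Nat.pow_right_injective (le_refl 2)
  show 2 ^ loops (c :: cs) μ (Fin.cons true s) = 2 ^ loops cs μ s
  rw [two_pow_loops_cons, two_pow_loops]
  refine Finset.sum_congr rfl fun y _ => ?_
  by_cases hT : Tail cs s y
  · rw [if_pos hT, Finset.sum_eq_single (y 0)]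
    · refine if_congr ?_ rfl rfl
      exact ⟨fun h => ⟨h.1, hT⟩, fun h => ⟨h.1, (step_true c _ _).mpr rfl⟩⟩
    · intro u _ hu
      exact if_neg fun h => hu ((step_true c _ _).mp h.2)
    · intro h
      exact absurd (Finset.mem_univ _) h
  · rw [if_neg hT, if_neg fun h => hT h.2]

theorem step_false (c : ℕ × Bool) (hc : c.1 + 1 < m) (u v : Fin m → Bool) :
    Step c false u v ↔ (∀ z : Fin m, (z : ℕ) ≠ c.1 → (z : ℕ) ≠ c.1 + 1 → u z = v z) ∧
      u ⟨c.1, by omega⟩ = u ⟨c.1 + 1, hc⟩ ∧ v ⟨c.1, by omega⟩ = v ⟨c.1 + 1, hc⟩ := by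
  constructor
  · rintro ⟨h1, h2⟩
    have h3 := h2 ⟨c.1, by omega⟩ ⟨c.1 + 1, hc⟩ rfl rfl rfl
    exact ⟨fun z hz hz' => h1 z (Or.inr ⟨hz, hz'⟩), h3.1, h3.2⟩
  · rintro ⟨h1, h2, h3⟩
    refine ⟨fun z hz => ?_, fun x y _ hx hy => ?_⟩
    · rcases hz with hz | hz
      · exact absurd hz (by simp)
      · exact h1 z hz.1 hz.2
    · have hx' : x = ⟨c.1, Nat.lt_of_succ_lt hc⟩ := Fin.ext hx
      have hy' : y = ⟨c.1 + 1, hc⟩ := Fin.ext hy
      rw [hx', hy']
      exact ⟨h2, h3⟩

open Classical in
theorem count_horizontal (c : ℕ × Bool) (hc : c.1 + 1 < m) (μ : Closure m) (w v : Fin m → Bool)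
    (hw : w ⟨c.1, by omega⟩ = w ⟨c.1 + 1, hc⟩) :
    (∑ u : Fin m → Bool, if (Out μ u v ∧ Step c false u w) then 1 else 0 : ℕ) =
      if Out (μ.cap c.1) w v then 2 ^ lp μ c.1 else 0 := by
  set I : Bool × Fin m := (true, ⟨c.1, by omega⟩) with hI
  set J : Bool × Fin m := (true, ⟨c.1 + 1, hc⟩) with hJ
  have hcount := col_count μ.f μ.invol μ.ne I J (ends w v) (by
    rw [hI, hJ]
    exact hw)
  rw [lp_eq μ hc]
  have h1 : (Out (μ.cap c.1) w v) = (∀ z, ends w v (capF μ.f I J z) = ends w v z) := by
    unfold Out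
    rw [μ.cap_f hc]
  rw [h1, ← hcount]
  -- the colourings `u` correspond to their value at `c.1`
  let φ : Bool → (Fin m → Bool) := fun t z => if (z : ℕ) = c.1 ∨ (z : ℕ) = c.1 + 1 then t else w z
  have hφ : Function.Injective φ := by
    intro t t' h
    have h2 := congrFun h ⟨c.1, by omega⟩
    simpa [φ] using h2
  have hends : ∀ t, ends (φ t) v = colF I J (ends w v) t := by
    intro t
    funext z
    obtain ⟨z1, z2⟩ := z
    cases z1
    · have h3 : ((false, z2) : Bool × Fin m) ≠ I := by rw [hI]; simp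
      have h4 : ((false, z2) : Bool × Fin m) ≠ J := by rw [hJ]; simp
      rw [colF_o _ _ h3 h4]
      rfl
    · by_cases h3 : (z2 : ℕ) = c.1
      · have h5 : ((true, z2) : Bool × Fin m) = I := by
          rw [hI]
          exact Prod.ext rfl (Fin.ext h3)
        rw [h5, colF_I, hI]
        simp [ends, φ]
      · by_cases h4 : (z2 : ℕ) = c.1 + 1
        · have h5 : ((true, z2) : Bool × Fin m) = J := by
            rw [hJ]
            exact Prod.ext rfl (Fin.ext h4)
          rw [h5, colF_J, hJ]
          simp [ends, φ]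
        · rw [colF_o]
          · simp [ends, φ, h3, h4]
          · rw [hI]
            intro h6
            exact h3 (congrArg (fun q : Bool × Fin m => (q.2 : ℕ)) h6)
          · rw [hJ]
            intro h6
            exact h4 (congrArg (fun q : Bool × Fin m => (q.2 : ℕ)) h6)
  have hstep : ∀ t, Step c false (φ t) w := by
    intro t
    rw [step_false c hc]
    refine ⟨fun z h3 h4 => ?_, ?_, hw⟩
    · simp [φ, h3, h4]
    · simp [φ]
  rw [← Finset.sum_subset (Finset.subset_univ (Finset.univ.image φ))]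
  · rw [Finset.sum_image fun a _ b _ h => hφ h]
    refine Finset.sum_congr rfl fun t _ => ?_
    have h2 : Out μ (φ t) v ↔ ∀ z, colF I J (ends w v) t (μ.f z) = colF I J (ends w v) t z := by
      unfold Out
      rw [hends]
    by_cases h3 : ∀ z, colF I J (ends w v) t (μ.f z) = colF I J (ends w v) t z
    · rw [if_pos h3, if_pos ⟨h2.mpr h3, hstep t⟩]
    · rw [if_neg h3, if_neg fun h => h3 (h2.mp h.1)]
  · intro u _ hu
    refine if_neg fun h => hu ?_
    rw [Finset.mem_image]
    have h3 := (step_false c hc u w).mp h.2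
    refine ⟨u ⟨c.1, by omega⟩, Finset.mem_univ _, ?_⟩
    funext z
    change (if (z : ℕ) = c.1 ∨ (z : ℕ) = c.1 + 1 then u ⟨c.1, by omega⟩ else w z) = u z
    by_cases h4 : (z : ℕ) = c.1
    · rw [if_pos (Or.inl h4)]
      exact congrArg u (Fin.ext h4.symm)
    · by_cases h5 : (z : ℕ) = c.1 + 1
      · rw [if_pos (Or.inr h5), h3.2.1]
        exact congrArg u (Fin.ext h5.symm)
      · rw [if_neg (by tauto)]
        exact (h3.1 z h4 h5).symm

theorem loops_horizontal (c : ℕ × Bool) (hc : c.1 + 1 < m)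
    (cs : List (ℕ × Bool)) (μ : Closure m) (s : Fin cs.length → Bool) :
    loops (c :: cs) μ (Fin.cons false s) = lp μ c.1 + loops cs (μ.cap c.1) s := by
  classical
  apply Nat.pow_right_injective (le_refl 2)
  show 2 ^ loops (c :: cs) μ (Fin.cons false s) = 2 ^ (lp μ c.1 + loops cs (μ.cap c.1) s)
  rw [two_pow_loops_cons, pow_add, two_pow_loops, Finset.mul_sum]
  refine Finset.sum_congr rfl fun y _ => ?_
  by_cases hT : Tail cs s y
  · rw [if_pos hT]
    by_cases hy : y 0 ⟨c.1, by omega⟩ = y 0 ⟨c.1 + 1, hc⟩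
    · rw [count_horizontal c hc μ (y 0) (y (Fin.last _)) hy]
      by_cases hz : Out (μ.cap c.1) (y 0) (y (Fin.last _))
      · rw [if_pos hz, if_pos ⟨hz, hT⟩, mul_one]
      · rw [if_neg hz, if_neg fun h => hz h.1, mul_zero]
    · have h1 : ¬ (Out (μ.cap c.1) (y 0) (y (Fin.last _)) ∧ Tail cs s y) := by
        rintro ⟨h, -⟩
        apply hy
        have h2 := h (true, ⟨c.1, by omega⟩)
        rw [μ.cap_f hc, capF_I] at h2
        exact h2.symm
      rw [if_neg h1, mul_zero]
      refine Finset.sum_eq_zero fun u _ => if_neg fun h => hy ?_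
      exact ((step_false c hc _ _).mp h.2).2.2
  · rw [if_neg hT, if_neg fun h => hT h.2, mul_zero]

theorem loops_pos (hm : 0 < m) (cs : List (ℕ × Bool)) (μ : Closure m)
    (s : Fin cs.length → Bool) : 0 < loops cs μ s := by
  have h1 : Nonempty (Quot (Joined cs μ s)) := ⟨Quot.mk _ (0, ⟨0, hm⟩)⟩
  exact Nat.card_pos

theorem delta_bracket (hm : 0 < m) (cs : List (ℕ × Bool)) (μ : Closure m) :
    delta * bracket cs μ = ∑ s : Fin cs.length → Bool, weight cs s * delta ^ loops cs μ s := by
  unfold bracket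
  rw [Finset.mul_sum]
  refine Finset.sum_congr rfl fun s _ => ?_
  have h1 := loops_pos hm cs μ s
  obtain ⟨n, hn⟩ : ∃ n, loops cs μ s = n + 1 := ⟨loops cs μ s - 1, by omega⟩
  rw [hn, Nat.add_sub_cancel, pow_succ]
  ring

theorem weight_cons (c : ℕ × Bool) (cs : List (ℕ × Bool)) (b : Bool) (s : Fin cs.length → Bool) :
    weight (c :: cs) (Fin.cons b s) = (if b = c.2 then T 1 else T (-1)) * weight cs s := by
  unfold weight
  exact Fin.prod_univ_succ (n := cs.length) _

/-- The bracket of a diagram with one more crossing. -/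
theorem delta_bracket_nil (hm : 0 < m) (μ : Closure m) :
    delta * bracket [] μ = delta ^ cyc μ := by
  rw [delta_bracket hm]
  show (∑ s : Fin 0 → Bool, weight [] s * delta ^ loops [] μ s) = delta ^ cyc μ
  rw [Fintype.sum_unique]
  have h1 : ∀ s : Fin 0 → Bool, weight [] s = 1 := fun s => Finset.prod_empty
  rw [h1, one_mul]
  exact congrArg (fun s : Fin 0 → Bool => delta ^ loops [] μ s)
    (Subsingleton.elim (α := Fin 0 → Bool) _ _)

theorem delta_bracket_cons (hm : 0 < m) (c : ℕ × Bool) (hc : c.1 + 1 < m)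
    (cs : List (ℕ × Bool)) (μ : Closure m) :
    delta * bracket (c :: cs) μ =
      (if c.2 = true then T 1 else T (-1)) * (delta * bracket cs μ) +
      (if c.2 = true then T (-1) else T 1) *
        (delta ^ lp μ c.1 * (delta * bracket cs (μ.cap c.1))) := by
  rw [delta_bracket hm]
  have h1 : (∑ s : Fin (c :: cs).length → Bool, weight (c :: cs) s *
      delta ^ loops (c :: cs) μ s) =
      ∑ b : Bool, ∑ s : Fin cs.length → Bool, weight (c :: cs) (Fin.cons b s) *
        delta ^ loops (c :: cs) μ (Fin.cons b s) := by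
    refine (Fintype.sum_equiv (Fin.consEquiv (fun _ : Fin (cs.length + 1) => Bool))
      (fun z => weight (c :: cs) (Fin.cons z.1 z.2) *
        delta ^ loops (c :: cs) μ (Fin.cons z.1 z.2)) _ (fun z => rfl)).symm.trans ?_
    rw [Fintype.sum_prod_type]
  rw [h1, Fintype.sum_bool]
  have h2 : (∑ s : Fin cs.length → Bool, weight (c :: cs) (Fin.cons true s) *
        delta ^ loops (c :: cs) μ (Fin.cons true s)) =
      (if c.2 = true then T 1 else T (-1)) * (delta * bracket cs μ) := by
    rw [delta_bracket hm, Finset.mul_sum]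
    refine Finset.sum_congr rfl fun s _ => ?_
    rw [weight_cons, loops_vertical, mul_assoc]
    congr 1
    exact if_congr eq_comm rfl rfl
  have h3 : (∑ s : Fin cs.length → Bool, weight (c :: cs) (Fin.cons false s) *
        delta ^ loops (c :: cs) μ (Fin.cons false s)) =
      (if c.2 = true then T (-1) else T 1) *
        (delta ^ lp μ c.1 * (delta * bracket cs (μ.cap c.1))) := by
    rw [delta_bracket hm, Finset.mul_sum, Finset.mul_sum]
    refine Finset.sum_congr rfl fun s _ => ?_
    rw [weight_cons, loops_horizontal c hc, pow_add]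
    have h4 : (if false = c.2 then T 1 else T (-1) : ℤ[T;T⁻¹]) =
        if c.2 = true then T (-1) else T 1 := by
      cases c.2 <;> simp
    rw [h4]
    ring
  rw [h2, h3]

/-- There are at most `m` loops. -/
theorem cyc_le (μ : Closure m) : cyc μ ≤ m := by
  unfold cyc loops
  have h1 : Nat.card (Fin ([] : List (ℕ × Bool)).length.succ × Fin m) = m := by
    rw [Nat.card_eq_fintype_card, Fintype.card_prod, Fintype.card_fin, Fintype.card_fin]
    simp
  refine le_trans (Nat.card_le_card_of_surjective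
    (Quot.mk (Joined [] μ fun j => j.elim0)) Quot.mk_surjective) ?_
  exact le_of_eq h1

end MP_fc1011_gt.MV
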